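import Pool.Agent.H23.D2.Bln
import Pool.Agent.H3.W.Bas
import Pool.Agent.H3.W2.H2.GEN.Swp
import Pool.Agent.H31.W1.H2.GEN.ChT
import Pool.Agent.H31.W1.H2.GEN.EvS
import Pool.Agent.H31.W1.H23.D2.Bln
import Pool.Agent.H31.W1.H62.GEN.JatB
import Pool.Agent.H31.W1.H80.GEN.Chn

/-!
# Balls only

`EvB`: the ball part of the event of a window. `ball_win`, `ball_list`: in a class, from the
diagonal data only, at one window and at finitely many windows.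
-/

set_option autoImplicit false

namespace Pool.W.D2R

open Pool.D2R

open Finset Real MvPolynomial
open Pool.Agent.H49.Ent Pool.Agent.H32.Dense Pool.STK Pool.KA Pool.KSAT Pool.K2S Pool.PB Pool.S6C
open Pool.GEN Pool.CHT Pool.CHX Pool.ISO
open Pool.LBT (LSys Slo Tri ThrOf fl_le' bas_false)
open Pool.LEV (Law)
open Pool.FLF (Fam.sub)
open Pool.JTN (TgP)

/-- **The data of a ball window** `w`, the radii at most `a`. -/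
structure BalD {m : ℕ} (S : Pool.PB.PCl m) (P : List (Fin m) × Fin m → ℝ → ℝ → ℝ) (θ : ℝ)
    (c : ℕ → Fin m) (r : ℕ) (Pt : ℝ → ℝ → ℝ) (a w : ℝ) (S₀ : ℕ) (Eb : ℝ) : Prop where
  lt : w < a
  dw : ∃ (ρ : ℝ) (vs e e₀ E sg : ℝ → ℝ) (Q : Set ℝ),
    Pool.W.ISO.PtD S P θ c r Pt w w ρ S₀ vs e e₀ E sg Q ∧ E 0 ≤ Eb
  top : ∀ l ≤ r, Pool.ISO.lvN P c r Pt l w w + Eb + (a - w) < 1

theorem WinD.bal {m : ℕ} {S : Pool.PB.PCl m} {P : List (Fin m) × Fin m → ℝ → ℝ → ℝ} {θ : ℝ}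
    {c : ℕ → Fin m} {r : ℕ} {Pt : ℝ → ℝ → ℝ} {a w : ℝ} {S₀ : ℕ} {Eb ε : ℝ} {R : ℕ → Prop}
    (h : Pool.W.ISO.WinD S P θ c r Pt a w S₀ Eb ε R) : Pool.W.D2R.BalD S P θ c r Pt a w S₀ Eb :=
  ⟨h.lt, h.dw, h.top⟩


section

variable {m J : ℕ} {F : Pool.KA.Fam m J} {c : ℕ → Fin m} {r D Dr w' v M : ℕ} {z : ℕ → ℕ}
    {e h p : ℕ} {R : ℕ → Prop} {g gc gT g₀ : ℕ → ℕ} {κ κ₁ κ₂ : ℝ} {B B' : F.Ω → Prop}
    {G₀ : Pool.GEN.PtT F → ℕ → MvPolynomial (Option (Fin m)) ℝ}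
    {H₀ : Pool.GEN.LnT F → ℕ → MvPolynomial (Option (Fin m)) ℝ}
    {T : Pool.GEN.PtT F → ℕ → MvPolynomial (Option (Fin m)) ℝ}
    {TH : Pool.GEN.LnT F → ℕ → MvPolynomial (Option (Fin m)) ℝ}
    {Gt : Pool.GEN.PtT F → MvPolynomial (Option (Fin m)) ℝ}
    {Ht : Pool.GEN.LnT F → MvPolynomial (Option (Fin m)) ℝ}


end


end Pool.W.D2R
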