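import Pool.Agent.H23.D2.Fam
import Pool.Agent.H31.W1.H80.GEN.Chn

/-!
# The row label against the ball chart: the second derivative

At a window `w` the coordinate `c r` has a label `Ht` (closed on `w`, two-sided on the natural box
of radius `2 ^ (-(a + v))` of the pair `(a + v, a)`, precision `2 ^ (-p)`); at the window `a ≥ w`
there is a ball chart `G₀` of all the coordinates. `r0_fam`: on a large part of the event
* `vel`, `nul`: all the lines through one exact point are on the ball chart, up to the natural error;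
* `box`, `fib`: the row label is near the ball chart, on the box and on all the velocities of the
  lines through the exact point;
* `hes`: the second derivative of the row label in the directions of its own line and of any line
  through the exact point is the one of the ball chart (in the natural coframe);
* `win`: the natural components of the difference, on the window `a`.
-/

set_option autoImplicit false

namespace Pool.W.D2R

open Pool.D2R

open Finset Real MvPolynomial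
open Pool.Agent.H49.Ent Pool.Agent.H32.Dense Pool.STK Pool.KA Pool.KSAT Pool.K2S Pool.PB Pool.S6C
open Pool.GEN Pool.CHT Pool.CHX Pool.ISO
open Pool.FLF (Fam.sub)
open Pool.PB.Trl (rt rt_mem t_rt)

variable {m J : ℕ}


/-- The corrected line label against the ball chart, on the natural box of the ball. -/
theorem dif_ball (D r : ℕ) : ∃ C : ℝ, 1 ≤ C ∧ ∀ {m J : ℕ} {F : Pool.KA.Fam m J} {c : ℕ → Fin m}
    {a e k : ℕ} {g₀ : ℕ → ℕ} {A : F.Ω → Prop}
    {G₀ : Pool.GEN.PtT F → ℕ → MvPolynomial (Option (Fin m)) ℝ}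
    {H₀ : Pool.GEN.LnT F → ℕ → MvPolynomial (Option (Fin m)) ℝ}, a ≤ J →
    Pool.W.GEN.ChOK F c (r + 1) (fun _ => D) a a e g₀ A G₀ H₀ → ∀ ω, A ω → ∀ l ≤ r,
    (∀ τ ∈ Set.Icc (0 : ℝ) 1,
      |(Pool.GEN.dv a (fun s _ => H₀ s l) (c l) (Pool.KSAT.slam F a ω)).eval τ| ≤ 2 ^ k / 2 ^ g₀ l) →
    ∀ b, Pool.GEN.NBx c (G₀ (Pool.PB.ptr F J ω)) g₀ a (F.t ω) l b →
      |eval b (Pool.GEN.Hno (c l) (fun s => H₀ s l) (Pool.KSAT.slam F a ω)) - eval b (G₀ (Pool.PB.ptr F J ω) l)| ≤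
        C * 2 ^ k / 2 ^ g₀ l := by
  obtain ⟨C, hC, hlip⟩ := Pool.Agent.H40.SLP.lip_one (D + 1)
  refine ⟨2 + 2 * C, by linarith, ?_⟩
  intro m J F c a e k g₀ A G₀ H₀ haJ hch ω hω l hl hdv b hb
  obtain ⟨τ, hτ⟩ : ∃ τ : ℝ, τ = 2 ^ a * b none - ((Pool.KSAT.slam F a ω).2.2 : ℝ) := ⟨_, rfl⟩
  have ha0 : (0 : ℝ) < 2 ^ a := by positivity
  have hg0 : (0 : ℝ) < 2 ^ g₀ l := by positivity
  have h1 : |τ - Pool.PB.Trl.rt F a ω| ≤ 1 := by
    have h2 := Pool.PB.Trl.t_rt F haJ ω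
    have h3 := hb.1
    have e1 : τ - Pool.PB.Trl.rt F a ω = 2 ^ a * (b none - F.t ω) := by
      rw [hτ, h2]
      field_simp
      ring
    rw [e1, abs_mul, abs_of_pos ha0]
    calc (2 : ℝ) ^ a * |b none - F.t ω| ≤ 2 ^ a * (1 / 2 ^ a) :=
          mul_le_mul_of_nonneg_left h3 ha0.le
      _ = 1 := by field_simp
  have hrt := Pool.PB.Trl.rt_mem F a ω
  have hτ2 : |τ| ≤ 2 := by
    rw [abs_le] at h1 ⊢
    constructor <;> linarith [h1.1, h1.2, hrt.1, hrt.2]
  have hqd := Pool.GEN.natDegree_dv a (G := fun s (_ : Fin m) => H₀ s l) (fun s _ => hch.degH s l) (c l)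
    (Pool.KSAT.slam F a ω)
  have h2 := hlip _ _ hqd hdv τ 0 hτ2 (by norm_num)
  have h3 := hdv 0 ⟨le_rfl, zero_le_one⟩
  rw [sub_zero] at h2
  have h4 : |(Pool.GEN.dv a (fun s _ => H₀ s l) (c l) (Pool.KSAT.slam F a ω)).eval τ| ≤
      (1 + 2 * C) * (2 ^ k / 2 ^ g₀ l) := by
    have h5 : C * (2 ^ k / 2 ^ g₀ l) * |τ| ≤ C * (2 ^ k / 2 ^ g₀ l) * 2 :=
      mul_le_mul_of_nonneg_left hτ2 (by positivity)
    have h6 := abs_sub_abs_le_abs_sub ((Pool.GEN.dv a (fun s _ => H₀ s l) (c l) (Pool.KSAT.slam F a ω)).eval τ)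
      ((Pool.GEN.dv a (fun s _ => H₀ s l) (c l) (Pool.KSAT.slam F a ω)).eval 0)
    linarith
  have h5 := hch.agr ω hω l (by omega) b hb
  rw [Pool.GEN.eval_Hno, Pool.D2R.eso_dv (c l) a (fun s => H₀ s l) (Pool.KSAT.slam F a ω) (b none), ← hτ]
  have e1 : eval b (H₀ (Pool.KSAT.slam F a ω) l) +
      (Pool.GEN.dv a (fun s _ => H₀ s l) (c l) (Pool.KSAT.slam F a ω)).eval τ - eval b (G₀ (Pool.PB.ptr F J ω) l) =
      (Pool.GEN.dv a (fun s _ => H₀ s l) (c l) (Pool.KSAT.slam F a ω)).eval τ -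
      (eval b (G₀ (Pool.PB.ptr F J ω) l) - eval b (H₀ (Pool.KSAT.slam F a ω) l)) := by ring
  rw [e1]
  refine (abs_sub _ _).trans ((add_le_add h4 h5).trans ?_)
  have h6 : (1 : ℝ) ≤ 2 ^ k := one_le_pow₀ (by norm_num)
  rw [← mul_div_assoc, ← add_div]
  refine div_le_div_of_nonneg_right ?_ hg0.le
  nlinarith


end Pool.W.D2R
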