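import Pool.Agent.H23.D2.Path
import Pool.Agent.H3.W.Nlp
import Pool.Agent.H31.W1.H80.GEN.Chn

/-!
# The paths through one exact point stay in the natural box

`hess_id`: the second derivative of a polynomial, in the natural coframe. `path_nat`: two lines
`ω`, `ν` through the same exact point; the line `ν`, moved to the point of `ω`, stays in the natural
box of the ball; so its velocity is on the ball chart, up to the natural error, and the second
derivative of the ball chart vanishes on it, up to the natural error.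
-/

set_option autoImplicit false

namespace Pool.W.D2R

open Pool.D2R

open Finset Real MvPolynomial
open Pool.Agent.H49.Ent Pool.Agent.H32.Dense Pool.STK Pool.KA Pool.KSAT Pool.K2S Pool.PB Pool.S6C
open Pool.GEN Pool.CHT
open Pool.PB.Trl (rt rt_mem t_rt)

variable {m J : ℕ}


/-- **The paths through one exact point.** -/
theorem path_box (m D r : ℕ) : ∃ C : ℕ, 1 ≤ C ∧ ∀ {J : ℕ} {F : Pool.KA.Fam m J} {c : ℕ → Fin m}
    {a e k : ℕ} {g₀ : ℕ → ℕ} {A : F.Ω → Prop}
    {G₀ : Pool.GEN.PtT F → ℕ → MvPolynomial (Option (Fin m)) ℝ}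
    {H₀ : Pool.GEN.LnT F → ℕ → MvPolynomial (Option (Fin m)) ℝ}, Set.InjOn c (Set.Iio (r + 1)) → a ≤ J →
    Pool.W.GEN.ChOK F c (r + 1) (fun _ => D) a a e g₀ A G₀ H₀ →
    (∀ l ≤ r, e + g₀ l + C * (k + 1) ≤ J) → ∀ ω ν, A ω → A ν → Pool.PB.ptr F J ω = Pool.PB.ptr F J ν →
    (∀ l ≤ r, ∀ τ ∈ Set.Icc (0 : ℝ) 1,
      |(Pool.GEN.dv a (fun s _ => H₀ s l) (c l) (Pool.KSAT.slam F a ν)).eval τ| ≤ 2 ^ k / 2 ^ g₀ l) →
    ∀ τ ∈ Set.Icc (0 : ℝ) 1, ∀ u ∈ Set.Icc (0 : ℝ) 1, ∀ l ≤ r,
      |(Pool.GEN.lc a (Pool.KSAT.slam F a ν) (some (c l))).eval τ + u * (F.x ω (c l) - F.x ν (c l)) -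
        eval (fun o => (Pool.GEN.lc a (Pool.KSAT.slam F a ν) o).eval τ + u * (Pool.GEN.bt F ω o - Pool.GEN.bt F ν o))
          (G₀ (Pool.PB.ptr F J ω) l)| ≤ 2 ^ (C * (k + 1)) / 2 ^ g₀ l := by
  classical
  obtain ⟨c₀, D₁, hD₁, hdil⟩ := Pool.CHT.nbx_dil (r + 2) (fun _ => D)
  obtain ⟨C₁, hC₁⟩ : ∃ C₁ : ℕ, C₁ = (c₀ + 2) * (1 + D₁) ^ (r + 2) := ⟨_, rfl⟩
  obtain ⟨C, hC⟩ : ∃ C : ℕ, C = c₀ + (C₁ + 2) * (D₁ + 1) + m + 4 := ⟨_, rfl⟩
  refine ⟨C, by omega, ?_⟩
  intro J F c a e k g₀ A G₀ H₀ hc haJ hch hJ ω ν hω hν hpt hdv τ hτ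
  obtain ⟨hT, htn, hx⟩ := Pool.D2R.bt_near hpt
  obtain ⟨b, hb⟩ : ∃ b : Option (Fin m) → ℝ, b = fun o => (Pool.GEN.lc a (Pool.KSAT.slam F a ν) o).eval τ :=
    ⟨_, rfl⟩
  have hbn : |b none - F.t ν| ≤ 1 / 2 ^ a := by
    have h1 := Pool.PB.Trl.t_rt F haJ ν
    have h2 : b none = (((Pool.KSAT.slam F a ν).2.2 : ℝ) + τ) / 2 ^ a := by
      rw [hb]
      simp only [Pool.GEN.lc, Polynomial.eval_add, Polynomial.eval_mul, Polynomial.eval_C,
        Polynomial.eval_X]
      ring
    rw [h2, h1, ← sub_div, abs_div, abs_of_pos (show (0 : ℝ) < 2 ^ a by positivity)]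
    refine div_le_div_of_nonneg_right ?_ (by positivity)
    have h3 := Pool.PB.Trl.rt_mem F a ν
    rw [abs_le]
    constructor <;> linarith [hτ.1, hτ.2, h3.1, h3.2]
  have hlexm : ∀ j ≤ r + 2, Pool.CHT.lex (k + 1) c₀ D₁ j ≤ C₁ * (k + 1) := by
    intro j hj
    refine (Pool.CHT.lex_le (k + 1) c₀ D₁ j).trans ?_
    have h1 : (1 + D₁) ^ j ≤ (1 + D₁) ^ (r + 2) := Nat.pow_le_pow_right (by omega) hj
    calc (k + 1 + c₀) * (1 + D₁) ^ j ≤ ((c₀ + 2) * (k + 1)) * (1 + D₁) ^ (r + 2) := by
          refine Nat.mul_le_mul ?_ h1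
          nlinarith
      _ = C₁ * (k + 1) := by rw [hC₁]; ring
  have hlexmono : ∀ i j, i ≤ j → Pool.CHT.lex (k + 1) c₀ D₁ i ≤ Pool.CHT.lex (k + 1) c₀ D₁ j := by
    intro i j hij
    induction j, hij using Nat.le_induction with
    | base => exact le_rfl
    | succ n hn ih => exact ih.trans (Pool.CHT.lex_mono hD₁)
  have hGdeg := hch.degG (Pool.PB.ptr F J ν)
  have hGdep := hch.depG (Pool.PB.ptr F J ν)
  -- the path of `ν` itself
  have hA : ∀ l ≤ r, |b (some (c l)) - eval b (G₀ (Pool.PB.ptr F J ν) l)| ≤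
      2 ^ Pool.CHT.lex (k + 1) c₀ D₁ (l + 1) / 2 ^ g₀ l := by
    intro l
    induction l using Nat.strong_induction_on with
    | _ l ih =>
      intro hl
      have h1 : |b (some (c l)) - eval b (H₀ (Pool.KSAT.slam F a ν) l)| ≤ 2 ^ k / 2 ^ g₀ l := by
        have h2 := hdv l hl τ hτ
        unfold Pool.GEN.dv at h2
        rw [Polynomial.eval_sub, Pool.KBX.eval_aeval_poly] at h2
        rw [hb]
        exact h2
      have h3 := hdil (c := c) (i := l) (G := G₀ (Pool.PB.ptr F J ν))
        (Q := G₀ (Pool.PB.ptr F J ν) l - H₀ (Pool.KSAT.slam F a ν) l) (g := g₀) (a := a) (t := F.t ν)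
        (M := 1 / 2 ^ g₀ l) (Pool.CHT.lex (k + 1) c₀ D₁ l) (by omega)
        (hc.mono fun x hx => by rw [Set.mem_Iio] at hx ⊢; omega) hGdeg hGdep
        (fun b b' h1 h2 => by
          rw [map_sub, map_sub, hGdep l b b' h1 h2, hch.depH _ l b b' h1 h2])
        ((totalDegree_sub _ _).trans (max_le (hGdeg l) (hch.degH _ l))) (by positivity)
        (fun b' hb' => by
          rw [map_sub]
          exact hch.agr ν hν l (by omega) b' hb') b hbn
        (fun j hj => (ih j hj (by omega)).trans (div_le_div_of_nonneg_right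
          (pow_le_pow_right₀ (by norm_num) (hlexmono _ _ (by omega))) (by positivity)))
      rw [map_sub] at h3
      have e1 : b (some (c l)) - eval b (G₀ (Pool.PB.ptr F J ν) l) =
          (b (some (c l)) - eval b (H₀ (Pool.KSAT.slam F a ν) l)) -
          (eval b (G₀ (Pool.PB.ptr F J ν) l) - eval b (H₀ (Pool.KSAT.slam F a ν) l)) := by ring
      rw [e1]
      refine (abs_sub _ _).trans ((add_le_add h1 h3).trans ?_)
      rw [mul_one_div, ← add_div]
      refine div_le_div_of_nonneg_right ?_ (by positivity)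
      have h4 : Pool.CHT.lex (k + 1) c₀ D₁ (l + 1) = k + 1 + c₀ + Pool.CHT.lex (k + 1) c₀ D₁ l * D₁ := rfl
      rw [h4]
      have h5 : (2 : ℝ) ^ (k + 1 + c₀ + Pool.CHT.lex (k + 1) c₀ D₁ l * D₁) =
          2 ^ k * 2 ^ (c₀ + Pool.CHT.lex (k + 1) c₀ D₁ l * D₁) * 2 := by
        rw [← pow_add, ← pow_succ]
        congr 1
        omega
      rw [h5]
      have h6 : (1 : ℝ) ≤ 2 ^ k := one_le_pow₀ (by norm_num)
      have h7 : (1 : ℝ) ≤ 2 ^ (c₀ + Pool.CHT.lex (k + 1) c₀ D₁ l * D₁) := one_le_pow₀ (by norm_num)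
      nlinarith
  -- the moved path
  obtain ⟨δ, hδ⟩ : ∃ δ : Option (Fin m) → ℝ, δ = fun o => Pool.GEN.bt F ω o - Pool.GEN.bt F ν o := ⟨_, rfl⟩
  have hδ0 : δ none = 0 := by
    rw [hδ]
    show Pool.GEN.bt F ω none - Pool.GEN.bt F ν none = 0
    rw [htn, sub_self]
  have hδj : ∀ j, |δ (some j)| ≤ 1 / 2 ^ J := by
    intro j
    rw [hδ]
    exact hx j
  have hB : ∀ l ≤ r, ∀ u ∈ Set.Icc (0 : ℝ) 1, |b (some (c l)) + u * δ (some (c l)) -
      eval (fun o => b o + u * δ o) (G₀ (Pool.PB.ptr F J ν) l)| ≤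
        2 ^ (C₁ * (k + 1) + 2) / 2 ^ g₀ l := by
    intro l
    induction l using Nat.strong_induction_on with
    | _ l ih =>
      intro hl u hu
      have h1 := hA l hl
      have h2 : |u * δ (some (c l))| ≤ 1 / 2 ^ g₀ l := by
        rw [abs_mul, abs_of_nonneg hu.1]
        calc u * |δ (some (c l))| ≤ 1 * (1 / 2 ^ J) :=
              mul_le_mul hu.2 (hδj _) (abs_nonneg _) (by norm_num)
          _ ≤ 1 / 2 ^ g₀ l := by
              rw [one_mul]
              refine Pool.PB.inv_mono ?_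
              have := hJ l hl
              omega
      -- the derivatives of the label along the segment
      have h3 : ∀ u ∈ Set.Icc (0 : ℝ) 1,
          |Pool.D2R.dd (G₀ (Pool.PB.ptr F J ν) l) (fun o => b o + u * δ o) δ| ≤ 1 / 2 ^ g₀ l := by
        intro u hu
        unfold Pool.D2R.dd
        refine (Finset.abs_sum_le_sum_abs _ _).trans ?_
        have h4 : ∀ o ∈ (Finset.univ : Finset (Option (Fin m))),
            |eval (fun o => b o + u * δ o) (pderiv o (G₀ (Pool.PB.ptr F J ν) l)) * δ o| ≤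
              1 / 2 ^ (g₀ l + (m + 1)) := by
          intro o _
          have hpos : (0 : ℝ) ≤ 1 / 2 ^ (g₀ l + (m + 1)) := by positivity
          cases o with
          | none =>
            rw [hδ0, mul_zero, abs_zero]
            exact hpos
          | some i =>
            by_cases hi : ∃ j < l, c j = i
            · obtain ⟨j, hj, rfl⟩ := hi
              have h5 := hdil (c := c) (i := l) (G := G₀ (Pool.PB.ptr F J ν))
                (Q := pderiv (some (c j)) (G₀ (Pool.PB.ptr F J ν) l)) (g := g₀) (a := a) (t := F.t ν)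
                (M := 2 ^ (e + Pool.W.GEN.nlp g₀ j l)) (C₁ * (k + 1) + 2) (by omega)
                (hc.mono fun x hx => by rw [Set.mem_Iio] at hx ⊢; omega) hGdeg hGdep
                (Pool.GEN.DepC.pderiv (hGdep l) j) (Pool.GEN.totalDegree_pdσ (hGdeg l) _) (by positivity)
                (fun b' hb' => hch.lip ν hν l (by omega) b' hb' j hj)
                (fun o => b o + u * δ o) (by
                  show |b none + u * δ none - F.t ν| ≤ _
                  rw [hδ0, mul_zero, add_zero]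
                  exact hbn) (fun i hi => ih i hi (by omega) u hu)
              rw [abs_mul]
              refine (mul_le_mul h5 (hδj _) (abs_nonneg _) (by positivity)).trans ?_
              rw [← pow_add, mul_one_div, div_le_div_iff₀ (by positivity) (by positivity),
                one_mul, ← pow_add]
              refine pow_le_pow_right₀ (by norm_num) ?_
              obtain ⟨i, hi1, hi2⟩ := Finset.exists_mem_eq_sup (Finset.range (l + 1))
                ⟨j, Finset.mem_range.2 (by omega)⟩ g₀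
              have hi3 := Finset.mem_range.1 hi1
              have h6 := hJ i (by omega)
              have h6' := hJ l hl
              have h7 : Pool.W.GEN.nlp g₀ j l = (Finset.range (l + 1)).sup g₀ - g₀ l := rfl
              have h8 : g₀ l ≤ (Finset.range (l + 1)).sup g₀ :=
                Finset.le_sup (f := g₀) (Finset.mem_range.2 (by omega))
              rw [hi2] at h7 h8
              have h9 : c₀ + (C₁ * (k + 1) + 2) * D₁ + (m + 1) ≤ C * (k + 1) := by
                rw [hC]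
                have e1 : (c₀ + (C₁ + 2) * (D₁ + 1) + m + 4) * (k + 1) =
                    c₀ + (C₁ * (k + 1) + 2) * D₁ + (m + 1) + (c₀ * k + C₁ * (k + 1) +
                      2 * (k + 1) + 2 * D₁ * k + m * k + 4 * k + 3) := by ring
                rw [e1]
                exact Nat.le_add_right _ _
              omega
            · rw [Pool.D2R.pd_zero (hGdep l) (fun j hj h' => hi ⟨j, hj, h'⟩), zero_mul, abs_zero]
              exact hpos
        refine (Finset.sum_le_sum h4).trans ?_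
        rw [Finset.sum_const, Finset.card_univ, Fintype.card_option, Fintype.card_fin,
          nsmul_eq_mul, mul_one_div, pow_add, div_le_div_iff₀ (by positivity) (by positivity),
          one_mul]
        have h5 : (((m + 1 : ℕ)) : ℝ) ≤ 2 ^ (m + 1) := by
          have := Nat.lt_two_pow_self (n := m + 1)
          exact_mod_cast this.le
        calc ((m + 1 : ℕ) : ℝ) * 2 ^ g₀ l ≤ 2 ^ (m + 1) * 2 ^ g₀ l :=
              mul_le_mul_of_nonneg_right h5 (by positivity)
          _ = _ := mul_comm _ _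
      have h4 := Pool.D2R.mv_seg (G₀ (Pool.PB.ptr F J ν) l) b δ h3 u hu
      have e1 : b (some (c l)) + u * δ (some (c l)) -
          eval (fun o => b o + u * δ o) (G₀ (Pool.PB.ptr F J ν) l) =
          (b (some (c l)) - eval b (G₀ (Pool.PB.ptr F J ν) l)) + u * δ (some (c l)) -
          (eval (fun o => b o + u * δ o) (G₀ (Pool.PB.ptr F J ν) l) - eval b (G₀ (Pool.PB.ptr F J ν) l)) := by
        ring
      rw [e1]
      refine (abs_sub _ _).trans ((add_le_add ((abs_add_le _ _).trans (add_le_add h1 h2))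
        h4).trans ?_)
      rw [← add_div, ← add_div]
      refine div_le_div_of_nonneg_right ?_ (by positivity)
      have h5 : (2 : ℝ) ^ Pool.CHT.lex (k + 1) c₀ D₁ (l + 1) ≤ 2 ^ (C₁ * (k + 1)) :=
        pow_le_pow_right₀ (by norm_num) (hlexm _ (by omega))
      have h6 : (1 : ℝ) ≤ 2 ^ (C₁ * (k + 1)) := one_le_pow₀ (by norm_num)
      rw [pow_add]
      linarith
  intro u hu l hl
  have h1 := hB l hl u hu
  rw [hb, hδ] at h1
  rw [hpt]
  refine le_trans h1 (div_le_div_of_nonneg_right (pow_le_pow_right₀ (by norm_num) ?_)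
    (by positivity))
  rw [hC]
  have e1 : (c₀ + (C₁ + 2) * (D₁ + 1) + m + 4) * (k + 1) =
      C₁ * (k + 1) + 2 + (c₀ * (k + 1) + C₁ * D₁ * (k + 1) + 2 * (D₁ + 1) * (k + 1) +
        m * (k + 1) + 4 * k + 2) := by ring
  rw [e1]
  exact Nat.le_add_right _ _

end Pool.W.D2R
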