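import Pool.Agent.H23.D2.Two
import Pool.Agent.H31.W.H23.D2.Path
import Pool.Agent.H31.W1.H80.GEN.Chn

/-!
# First and second natural derivatives

`box_two`: the first and the second derivatives of a polynomial which is bounded on a natural box,
in natural directions. `path_nat`: the velocities of the lines through one exact point. `rem_fam`:
Remez inequality for finitely many closed polynomials.
-/

set_option autoImplicit false

namespace Pool.W.D2R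

open Pool.D2R

open Finset Real MvPolynomial
open Pool.Agent.H49.Ent Pool.Agent.H32.Dense Pool.STK Pool.KA Pool.KSAT Pool.K2S Pool.PB Pool.S6C
open Pool.GEN Pool.CHT
open Pool.FLF (Fam.sub)
open Pool.PB.Trl (rt rt_mem t_rt)


variable {m J : ℕ}

/-- **The velocities of the lines through one exact point.** -/
theorem path_nat (m D r : ℕ) : ∃ C : ℕ, 1 ≤ C ∧ ∀ {J : ℕ} {F : Pool.KA.Fam m J} {c : ℕ → Fin m}
    {a e k : ℕ} {g₀ : ℕ → ℕ} {A : F.Ω → Prop}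
    {G₀ : Pool.GEN.PtT F → ℕ → MvPolynomial (Option (Fin m)) ℝ}
    {H₀ : Pool.GEN.LnT F → ℕ → MvPolynomial (Option (Fin m)) ℝ}, Set.InjOn c (Set.Iio (r + 1)) → a ≤ J →
    Pool.W.GEN.ChOK F c (r + 1) (fun _ => D) a a e g₀ A G₀ H₀ →
    (∀ l ≤ r, e + g₀ l + C * (k + 1) ≤ J) → ∀ ω ν, A ω → A ν → Pool.PB.ptr F J ω = Pool.PB.ptr F J ν →
    (∀ l ≤ r, ∀ τ ∈ Set.Icc (0 : ℝ) 1,
      |(Pool.GEN.dv a (fun s _ => H₀ s l) (c l) (Pool.KSAT.slam F a ν)).eval τ| ≤ 2 ^ k / 2 ^ g₀ l) → ∀ l ≤ r,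
    |Pool.GEN.bd F ν (some (c l)) - Pool.D2R.dd (G₀ (Pool.PB.ptr F J ω) l) (Pool.GEN.bt F ω) (Pool.GEN.bd F ν)| ≤
        2 ^ (C * (k + 1)) * 2 ^ a / 2 ^ g₀ l ∧
      |Pool.D2R.hs (G₀ (Pool.PB.ptr F J ω) l) (Pool.GEN.bt F ω) (Pool.GEN.bd F ν) (Pool.GEN.bd F ν)| ≤
        2 ^ (C * (k + 1)) * (2 ^ a) ^ 2 / 2 ^ g₀ l := by
  classical
  obtain ⟨C₁, hC₁, hpb⟩ := Pool.W.D2R.path_box m D r
  obtain ⟨C₂, hC₂, hder⟩ := Pool.D2R.der_one (D + 1)
  obtain ⟨c₂, hc₂⟩ := pow_unbounded_of_one_lt C₂ (one_lt_two (α := ℝ))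
  refine ⟨C₁ + 2 * c₂, by omega, ?_⟩
  intro J F c a e k g₀ A G₀ H₀ hc haJ hch hJ ω ν hω hν hpt hdv l hl
  obtain ⟨hT, htn, hx⟩ := Pool.D2R.bt_near hpt
  obtain ⟨p, hp⟩ : ∃ p : Option (Fin m) → Polynomial ℝ, p = fun o =>
      Pool.GEN.lc a (Pool.KSAT.slam F a ν) o + Polynomial.C (Pool.GEN.bt F ω o - Pool.GEN.bt F ν o) := ⟨_, rfl⟩
  have hpe : ∀ o s, (p o).eval s = (Pool.GEN.lc a (Pool.KSAT.slam F a ν) o).eval s + (Pool.GEN.bt F ω o - Pool.GEN.bt F ν o) := by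
    intro o s
    rw [hp]
    simp only [Polynomial.eval_add, Polynomial.eval_C]
  have hpd : ∀ o, (p o).natDegree ≤ 1 := by
    intro o
    rw [hp]
    refine (Polynomial.natDegree_add_le _ _).trans (max_le (Pool.GEN.natDegree_lc _ _ _) ?_)
    rw [Polynomial.natDegree_C]
    exact Nat.zero_le _
  have hx0 : ∀ o, (p o).eval (Pool.PB.Trl.rt F a ν) = Pool.GEN.bt F ω o := by
    intro o
    rw [hpe, Pool.GEN.eval_lc F haJ]
    ring
  have hdp : ∀ o, Polynomial.derivative (p o) = Polynomial.C (1 / 2 ^ a * Pool.GEN.bd F ν o) := by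
    intro o
    rw [hp]
    simp only [Polynomial.derivative_add, Polynomial.derivative_C, add_zero]
    exact Pool.GEN.der_lc F a ν o
  have hcv := Pool.D2R.der_curve p (x := Pool.GEN.bt F ω) (V := (1 / 2 ^ a : ℝ) • Pool.GEN.bd F ν) (Z := 0)
    (s := Pool.PB.Trl.rt F a ν) hx0 (fun o => by rw [hdp, Polynomial.eval_C]; rfl) (fun o => by
      rw [hdp, Polynomial.derivative_C, Polynomial.eval_zero]; rfl) (G₀ (Pool.PB.ptr F J ω) l)
  obtain ⟨q, hq⟩ : ∃ q : Polynomial ℝ, q = p (some (c l)) -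
      MvPolynomial.aeval p (G₀ (Pool.PB.ptr F J ω) l) := ⟨_, rfl⟩
  have hqd : q.natDegree ≤ D + 1 := by
    rw [hq]
    refine (Polynomial.natDegree_sub_le _ _).trans (max_le ((hpd _).trans (by omega)) ?_)
    exact (Pool.KBX.natDegree_aeval_le _ _ hpd (hch.degG _ l)).trans (by omega)
  have hC₁' : ∀ l ≤ r, e + g₀ l + C₁ * (k + 1) ≤ J := by
    intro l hl
    refine le_trans ?_ (hJ l hl)
    refine Nat.add_le_add_left (Nat.mul_le_mul_right _ ?_) _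
    omega
  have hqb : ∀ τ ∈ Set.Icc (0 : ℝ) 1, |q.eval τ| ≤ 2 ^ (C₁ * (k + 1)) / 2 ^ g₀ l := by
    intro τ hτ
    have h1 := hpb hc haJ hch hC₁' ω ν hω hν hpt hdv τ hτ 1 ⟨zero_le_one, le_rfl⟩ l hl
    rw [hq, Polynomial.eval_sub, Pool.KBX.eval_aeval_poly, hpe]
    have e1 : (fun o => (p o).eval τ) = fun o => (Pool.GEN.lc a (Pool.KSAT.slam F a ν) o).eval τ +
        1 * (Pool.GEN.bt F ω o - Pool.GEN.bt F ν o) := by
      funext o
      rw [hpe, one_mul]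
    rw [e1]
    have e2 : (Pool.GEN.lc a (Pool.KSAT.slam F a ν) (some (c l))).eval τ +
        (Pool.GEN.bt F ω (some (c l)) - Pool.GEN.bt F ν (some (c l))) =
        (Pool.GEN.lc a (Pool.KSAT.slam F a ν) (some (c l))).eval τ + 1 * (F.x ω (c l) - F.x ν (c l)) := by
      rw [one_mul]
      rfl
    rw [e2]
    exact h1
  have hd1 := hder q _ hqd hqb
  have hrt := Pool.PB.Trl.rt_mem F a ν
  have hrt1 : |Pool.PB.Trl.rt F a ν| ≤ 1 := by
    rw [abs_of_nonneg hrt.1]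
    exact hrt.2
  have hd2 := hder _ _ ((Polynomial.natDegree_derivative_le _).trans
    ((Nat.sub_le _ _).trans hqd)) (fun s hs => hd1 s (by
      rw [abs_of_nonneg hs.1]
      exact hs.2)) _ hrt1
  have e1 : (Polynomial.derivative q).eval (Pool.PB.Trl.rt F a ν) =
      1 / 2 ^ a * (Pool.GEN.bd F ν (some (c l)) - Pool.D2R.dd (G₀ (Pool.PB.ptr F J ω) l) (Pool.GEN.bt F ω) (Pool.GEN.bd F ν)) := by
    rw [hq, Polynomial.derivative_sub, Polynomial.eval_sub, hcv.1, Pool.D2R.dd_smul, hdp,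
      Polynomial.eval_C]
    ring
  have e2 : (Polynomial.derivative (Polynomial.derivative q)).eval (Pool.PB.Trl.rt F a ν) =
      -(1 / 2 ^ a * (1 / 2 ^ a * Pool.D2R.hs (G₀ (Pool.PB.ptr F J ω) l) (Pool.GEN.bt F ω) (Pool.GEN.bd F ν) (Pool.GEN.bd F ν))) := by
    rw [hq, Polynomial.derivative_sub, Polynomial.derivative_sub, Polynomial.eval_sub, hcv.2,
      Pool.D2R.hs_smul_left, Pool.D2R.hs_smul_right, hdp, Polynomial.derivative_C, Polynomial.eval_zero]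
    have : Pool.D2R.dd (G₀ (Pool.PB.ptr F J ω) l) (Pool.GEN.bt F ω) 0 = 0 := by
      unfold Pool.D2R.dd
      refine Finset.sum_eq_zero fun o _ => ?_
      rw [Pi.zero_apply, mul_zero]
    rw [this]
    ring
  have ha0 : (0 : ℝ) < 2 ^ a := by positivity
  have hg0 : (0 : ℝ) < 2 ^ g₀ l := by positivity
  have h1 := hd1 _ hrt1
  rw [e1, abs_mul, abs_of_pos (show (0 : ℝ) < 1 / 2 ^ a by positivity)] at h1
  rw [e2, abs_neg, abs_mul, abs_mul, abs_of_pos (show (0 : ℝ) < 1 / 2 ^ a by positivity)] at hd2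
  have hk1 : (1 : ℝ) ≤ 2 ^ (C₁ * (k + 1)) := one_le_pow₀ (by norm_num)
  have hcc : (2 : ℝ) ^ c₂ * 2 ^ c₂ * 2 ^ (C₁ * (k + 1)) ≤ 2 ^ ((C₁ + 2 * c₂) * (k + 1)) := by
    rw [← pow_add, ← pow_add]
    refine pow_le_pow_right₀ (by norm_num) ?_
    have : (C₁ + 2 * c₂) * (k + 1) = c₂ + c₂ + C₁ * (k + 1) + 2 * c₂ * k := by ring
    rw [this]
    exact Nat.le_add_right _ _
  have h2c : (1 : ℝ) ≤ 2 ^ c₂ := one_le_pow₀ (by norm_num)
  constructor
  · rw [one_div_mul_eq_div, div_le_iff₀ ha0] at h1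
    refine h1.trans ?_
    rw [le_div_iff₀ hg0]
    have e3 : C₂ * (2 ^ (C₁ * (k + 1)) / 2 ^ g₀ l) * 2 ^ a * 2 ^ g₀ l =
        C₂ * 2 ^ (C₁ * (k + 1)) * 2 ^ a := by field_simp
    rw [e3]
    refine mul_le_mul_of_nonneg_right (le_trans ?_ hcc) ha0.le
    refine mul_le_mul_of_nonneg_right ?_ (by positivity)
    nlinarith [hc₂.le]
  · rw [one_div_mul_eq_div, div_le_iff₀ ha0, one_div_mul_eq_div, div_le_iff₀ ha0] at hd2
    refine hd2.trans ?_
    rw [le_div_iff₀ hg0]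
    have e3 : C₂ * (C₂ * (2 ^ (C₁ * (k + 1)) / 2 ^ g₀ l)) * 2 ^ a * 2 ^ a * 2 ^ g₀ l =
        C₂ * C₂ * 2 ^ (C₁ * (k + 1)) * (2 ^ a) ^ 2 := by field_simp
    rw [e3]
    refine mul_le_mul_of_nonneg_right (le_trans ?_ hcc) (by positivity)
    refine mul_le_mul_of_nonneg_right ?_ (by positivity)
    exact mul_le_mul hc₂.le hc₂.le (by linarith) (by positivity)


end Pool.W.D2R
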