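import Pool.Agent.H23.D2.Gen
import Pool.Agent.H31.W.H23.D2.Fam
import Pool.Agent.H31.W.H23.D2.Rad
import Pool.Agent.H31.W.H23.D2.Two
import Pool.Agent.H31.W1.H80.GEN.Chn

/-!
# The row label against the ball chart, for any thin chain

As `r0_fam`, where the boxes of the row label are the natural boxes of any chain `T` of the pair
`(a + v, a)` with no relation (rough and static coordinates in any order). `r1_fam`: on a large part
of the event, the difference `Δ` of the row label and of the re-centred ball label has small natural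
components on the window `a`, and so has its derivative along the own line.
-/

set_option autoImplicit false

namespace Pool.W.D2R

open Pool.D2R

open Finset Real MvPolynomial
open Pool.Agent.H49.Ent Pool.Agent.H32.Dense Pool.STK Pool.KA Pool.KSAT Pool.K2S Pool.PB Pool.S6C
open Pool.GEN Pool.CHT Pool.CHX Pool.ISO
open Pool.FLF (Fam.sub)
open Pool.PB.Trl (rt rt_mem t_rt)

variable {m J : ℕ}


/-- **The data**: a ball chart at the window `a`; a chain `T` at the pair `(a + v, a)`; a label of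
`c r` which is closed on the window `w`, and the re-centred ball label of `c r`, both two-sided on
the natural boxes of `T`. -/
structure RDat1 (F : Pool.KA.Fam m J) (c : ℕ → Fin m) (r D w a v e : ℕ) (g₀ gT : ℕ → ℕ) (p : ℕ)
    (A : F.Ω → Prop) (G₀ : Pool.GEN.PtT F → ℕ → MvPolynomial (Option (Fin m)) ℝ)
    (H₀ : Pool.GEN.LnT F → ℕ → MvPolynomial (Option (Fin m)) ℝ)
    (T : Pool.GEN.PtT F → ℕ → MvPolynomial (Option (Fin m)) ℝ)
    (TH : Pool.GEN.LnT F → ℕ → MvPolynomial (Option (Fin m)) ℝ)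
    (Gt : Pool.GEN.PtT F → MvPolynomial (Option (Fin m)) ℝ)
    (Ht : Pool.GEN.LnT F → MvPolynomial (Option (Fin m)) ℝ) : Prop where
  ball : Pool.W.GEN.ChOK F c (r + 1) (fun _ => D) a a e g₀ A G₀ H₀
  thin : Pool.W.GEN.ChOK F c r (fun _ => D) (a + v) a e gT A T TH
  dG : ∀ y, (Gt y).totalDegree ≤ D
  dH : ∀ s, (Ht s).totalDegree ≤ D
  pG : ∀ y, Pool.GEN.DepC c r (Gt y)
  pH : ∀ s, Pool.GEN.DepC c r (Ht s)
  pos : ∀ ω, A ω → |F.x ω (c r) - eval (Pool.GEN.bt F ω) (Gt (Pool.PB.ptr F J ω))| ≤ 1 / 2 ^ p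
  agr : ∀ ω, A ω → ∀ b, Pool.GEN.NBx c (T (Pool.PB.ptr F J ω)) gT (a + v) (F.t ω) r b →
    |eval b (Gt (Pool.PB.ptr F J ω)) - eval b (Ht (Pool.KSAT.slam F w ω))| ≤ 1 / 2 ^ p
  rpos : ∀ ω, A ω → |F.x ω (c r) -
    eval (Pool.GEN.bt F ω) (Pool.GEN.Gno (c r) J J (fun y => G₀ y r) (Pool.PB.ptr F J ω))| ≤ 1 / 2 ^ p
  ragr : ∀ ω, A ω → ∀ b, Pool.GEN.NBx c (T (Pool.PB.ptr F J ω)) gT (a + v) (F.t ω) r b →
    |eval b (Pool.GEN.Gno (c r) J J (fun y => G₀ y r) (Pool.PB.ptr F J ω)) -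
      eval b (Pool.GEN.Hno (c r) (fun s => H₀ s r) (Pool.KSAT.slam F a ω))| ≤ 1 / 2 ^ p


/-- **The row label against the ball chart**, for any thin chain. -/
theorem r1_fam (m D r : ℕ) (hD : 1 ≤ D) : ∃ C : ℕ, 1 ≤ C ∧ ∀ {J : ℕ} {F : Pool.KA.Fam m J}
    {c : ℕ → Fin m} {w a v e h k p : ℕ} {θ κ : ℝ} {g₀ gT : ℕ → ℕ} {A : F.Ω → Prop}
    {G₀ : Pool.GEN.PtT F → ℕ → MvPolynomial (Option (Fin m)) ℝ}
    {H₀ : Pool.GEN.LnT F → ℕ → MvPolynomial (Option (Fin m)) ℝ}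
    {T : Pool.GEN.PtT F → ℕ → MvPolynomial (Option (Fin m)) ℝ}
    {TH : Pool.GEN.LnT F → ℕ → MvPolynomial (Option (Fin m)) ℝ}
    {Gt : Pool.GEN.PtT F → MvPolynomial (Option (Fin m)) ℝ} {Ht : Pool.GEN.LnT F → MvPolynomial (Option (Fin m)) ℝ}
    (_ : 0 < Pool.K2S.Pe F.p A), Set.InjOn c (Set.Iio (r + 1)) → w ≤ a → a ≤ J →
    Pool.W.D2R.RDat1 F c r D w a v e g₀ gT p A G₀ H₀ T TH Gt Ht →
    Pool.CHT.RelvF F c r (a + v) a gT D h κ A T → κ ≤ 1 / 4 → (∀ l < r, 1 ≤ gT l) →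
    (∀ l ≤ r, e + g₀ l + C * (k + 1) ≤ J) → (∀ l < r, e + gT l + C * (k + 1) ≤ J) → 0 ≤ θ →
    (∀ (B : F.Ω → Prop) (hB : 0 < Pool.K2S.Pe F.p B), Pool.K2S.Sub B A → Pool.K2S.Pe F.p A / 16 ≤ Pool.K2S.Pe F.p B →
      (Pool.FLF.Fam.sub F B hB).Tm θ) →
    C * (θ + 1) ≤ ((J : ℝ) - a) * Real.log 2 → Real.exp (C * (θ + 1)) ≤ 2 ^ k →
    ∃ B : F.Ω → Prop, Pool.K2S.Sub B A ∧ Pool.K2S.Pe F.p A / 16 ≤ Pool.K2S.Pe F.p B ∧
      Pool.D2R.ROut1 F c r w a v g₀ gT p (2 ^ (C * (h + k + 1))) B G₀ H₀ T TH Ht := by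
  classical
  obtain ⟨C₁, hC₁, hpn⟩ := Pool.W.D2R.path_nat m D r
  obtain ⟨C₁', hC₁', hpv⟩ := Pool.W.D2R.path_vel m D r
  obtain ⟨C₂, hC₂, hba⟩ := Pool.D2R.box_all r D D
  have hba' := fun l : ℕ => Pool.D2R.box_all l D D
  choose Cb hCb hbl using hba'
  obtain ⟨C₂', hC₂'⟩ : ∃ C₂' : ℝ, C₂' = ∑ l ∈ range (r + 1), Cb l := ⟨_, rfl⟩
  have hCbl : ∀ l ≤ r, Cb l ≤ C₂' := by
    intro l hl
    rw [hC₂']
    exact Finset.single_le_sum (f := Cb) (fun l _ => by linarith [hCb l])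
      (Finset.mem_range.2 (by omega))
  have hC₂'0 : 0 ≤ C₂' := (by linarith [hCb 0] : (0 : ℝ) ≤ Cb 0).trans (hCbl 0 (Nat.zero_le _))
  obtain ⟨C₃, hC₃, hrm⟩ := Pool.D2R.rem_fam m (D + 1) (r + 1)
  obtain ⟨C₄, hC₄, hrn⟩ := Pool.D2R.rem_fam m (D + r * D) (r + 1)
  obtain ⟨C₅, hbs⟩ := Pool.D2R.box_smp D r
  obtain ⟨C₆, hC₆, hcs⟩ := Pool.D2R.cmp_smp D r
  obtain ⟨C₇, hC₇, hdb⟩ := Pool.W.D2R.dif_ball D r
  obtain ⟨C₈, hC₈, hder⟩ := Pool.D2R.der_one (D + r * D)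
  obtain ⟨C₉, hdbl⟩ := Pool.CHT.nbx_dbl (r + 1) (fun _ => D)
  obtain ⟨N₀, hN₀⟩ := pow_unbounded_of_one_lt (C₂ + C₂' + C₆ + C₇ + C₈ + 2 ^ C₉ + (r + 1))
    (one_lt_two (α := ℝ))
  obtain ⟨C, hC⟩ : ∃ C : ℕ, C = 10 * (N₀ + 2 * C₁ + 2 * C₁' + C₅ + 4) + ⌈C₃⌉₊ + ⌈C₄⌉₊ := ⟨_, rfl⟩
  have hC3 : C₃ ≤ C := by
    refine (Nat.le_ceil C₃).trans ?_
    have : ⌈C₃⌉₊ ≤ C := by omega
    exact_mod_cast this
  have hC4 : C₄ ≤ C := by
    refine (Nat.le_ceil C₄).trans ?_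
    have : ⌈C₄⌉₊ ≤ C := by omega
    exact_mod_cast this
  refine ⟨C, by omega, ?_⟩
  intro J F c w a v e h k p θ κ g₀ gT A G₀ H₀ T TH Gt Ht hA hc hwa haJ hd hR hκ hgT hJ hJT hθ hTm
    hCJ hexp
  have hr0 : (0 : ℝ) ≤ r := Nat.cast_nonneg r
  have hC90 : (0 : ℝ) < 2 ^ C₉ := by positivity
  obtain ⟨Y, hY2, hY10, y2, y2', y6, y7, y8, y9, yr, y1, y1', yk, yk1, y5, yh⟩ := Pool.D2R.num_r1
    (C₁ := C₁) (C₁' := C₁') (C₅ := C₅) (h := h) (k := k) (r := r) (N₀ := N₀) (C₂ := C₂)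
    (C₂' := C₂') (C₆ := C₆) (C₇ := C₇) (C₈ := C₈) (C₉ := 2 ^ C₉) (by linarith) (by linarith)
    (by linarith) (by linarith) (by linarith) (by linarith) (by linarith)
  have hYU : Y ^ 10 ≤ 2 ^ (C * (h + k + 1)) := by
    rw [hY10]
    refine pow_le_pow_right₀ (by norm_num) (Nat.mul_le_mul_right _ ?_)
    omega
  obtain ⟨U, hU⟩ : ∃ U : ℝ, U = 2 ^ (C * (h + k + 1)) := ⟨_, rfl⟩
  rw [← hU] at hYU ⊢
  have hY0 : 0 < Y := by linarith
  have hY1 : 1 ≤ Y := by linarith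
  have hYn : ∀ n ≤ 10, Y ^ n ≤ U := fun n hn => (pow_le_pow_right₀ hY1 hn).trans hYU
  have hYm : ∀ i j, i ≤ j → Y ^ i ≤ Y ^ j := fun i j hij => pow_le_pow_right₀ hY1 hij
  have hθ1 : 0 ≤ θ + 1 := by linarith
  have hexp3 : Real.exp (C₃ * (θ + 1)) ≤ 2 ^ k := (Real.exp_le_exp.2
    (mul_le_mul_of_nonneg_right hC3 hθ1)).trans hexp
  have hexp4 : Real.exp (C₄ * (θ + 1)) ≤ 2 ^ k := (Real.exp_le_exp.2
    (mul_le_mul_of_nonneg_right hC4 hθ1)).trans hexp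
  have hc' : Set.InjOn c (Set.Iio r) := hc.mono fun x hx => by
    rw [Set.mem_Iio] at hx ⊢
    omega
  have hball := hd.ball
  have hthin := hd.thin
  have hp := Pool.K2S.Pe_nonneg F.isLaw
  -- the heights of the lines over the ball
  obtain ⟨B₀, b1, b2, b3⟩ := hrm J F A hA a (fun l s => Pool.GEN.dv a (fun s _ => H₀ s l) (c l) s)
    (fun l => 2 / 2 ^ g₀ l) θ haJ (fun l _ s => Pool.GEN.natDegree_dv a
      (G := fun s (_ : Fin m) => H₀ s l) (fun s _ => hball.degH s l) (c l) s)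
    (fun l _ => by positivity) hθ (hTm A hA (fun _ h => h) (by linarith [hp A]))
    ((mul_le_mul_of_nonneg_right hC3 hθ1).trans hCJ) (fun ω hω l hl => by
      show |(Pool.GEN.dv a (fun s _ => H₀ s l) (c l) (Pool.KSAT.slam F a ω)).eval (Pool.PB.Trl.rt F a ω)| ≤ _
      rw [Pool.GEN.eval_dv F haJ (fun s _ => H₀ s l) ω (c l)]
      have h1 := hball.pos ω hω l hl
      have h2 := hball.agr ω hω l hl _ (hball.self hω hl.le)
      have e1 : F.x ω (c l) - eval (Pool.GEN.bt F ω) (H₀ (Pool.KSAT.slam F a ω) l) =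
          (F.x ω (c l) - eval (Pool.GEN.bt F ω) (G₀ (Pool.PB.ptr F J ω) l)) +
          (eval (Pool.GEN.bt F ω) (G₀ (Pool.PB.ptr F J ω) l) - eval (Pool.GEN.bt F ω) (H₀ (Pool.KSAT.slam F a ω) l)) := by ring
      rw [e1]
      refine (abs_add_le _ _).trans ((add_le_add h1 h2).trans (le_of_eq ?_))
      ring)
  have hB₀0 : 0 < Pool.K2S.Pe F.p B₀ := by linarith
  -- the heights of the lines over the thin chain
  obtain ⟨B₁, q1, q2, q3⟩ := hrm J F B₀ hB₀0 a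
    (fun l s => if l < r then Pool.GEN.dv a (fun s _ => TH s l) (c l) s else 0)
    (fun l => 2 / 2 ^ gT l) θ haJ (fun l _ s => by
      show (if l < r then Pool.GEN.dv a (fun s _ => TH s l) (c l) s else 0).natDegree ≤ _
      split_ifs
      · exact Pool.GEN.natDegree_dv a (G := fun s (_ : Fin m) => TH s l) (fun s _ => hthin.degH s l) (c l) s
      · rw [Polynomial.natDegree_zero]
        exact Nat.zero_le _)
    (fun l _ => by positivity) hθ (hTm B₀ hB₀0 b1 (by linarith [hp A]))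
    ((mul_le_mul_of_nonneg_right hC3 hθ1).trans hCJ) (fun ω hω l _ => by
      show |(if l < r then Pool.GEN.dv a (fun s _ => TH s l) (c l) (Pool.KSAT.slam F a ω) else 0).eval
        (Pool.PB.Trl.rt F a ω)| ≤ _
      split_ifs with hl
      · rw [Pool.GEN.eval_dv F haJ (fun s _ => TH s l) ω (c l)]
        have h1 := hthin.pos ω (b1 ω hω) l hl
        have h2 := hthin.agr ω (b1 ω hω) l hl _ (hthin.self (b1 ω hω) hl.le)
        have e1 : F.x ω (c l) - eval (Pool.GEN.bt F ω) (TH (Pool.KSAT.slam F a ω) l) =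
            (F.x ω (c l) - eval (Pool.GEN.bt F ω) (T (Pool.PB.ptr F J ω) l)) +
            (eval (Pool.GEN.bt F ω) (T (Pool.PB.ptr F J ω) l) - eval (Pool.GEN.bt F ω) (TH (Pool.KSAT.slam F a ω) l)) := by ring
        rw [e1]
        refine (abs_add_le _ _).trans ((add_le_add h1 h2).trans (le_of_eq ?_))
        ring
      · rw [Polynomial.eval_zero, abs_zero]
        positivity)
  have hBA1 : Pool.K2S.Sub B₁ A := fun ω hω => b1 ω (q1 ω hω)
  have hB₁0 : 0 < Pool.K2S.Pe F.p B₁ := by linarith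
  have hdv : ∀ ω, B₁ ω → ∀ l ≤ r, ∀ τ ∈ Set.Icc (0 : ℝ) 1,
      |(Pool.GEN.dv a (fun s _ => H₀ s l) (c l) (Pool.KSAT.slam F a ω)).eval τ| ≤ 2 ^ (k + 1) / 2 ^ g₀ l := by
    intro ω hω l hl τ hτ
    refine (b3 ω (q1 ω hω) l (by omega) τ hτ).trans ?_
    rw [pow_succ, mul_div_assoc]
    exact mul_le_mul_of_nonneg_right hexp3 (by positivity)
  have hdvT : ∀ ω, B₁ ω → ∀ l < r, ∀ τ ∈ Set.Icc (0 : ℝ) 1,
      |(Pool.GEN.dv a (fun s _ => TH s l) (c l) (Pool.KSAT.slam F a ω)).eval τ| ≤ 2 ^ (k + 1) / 2 ^ gT l := by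
    intro ω hω l hl τ hτ
    have h1 := q3 ω hω l (by omega) τ hτ
    simp only [if_pos hl] at h1
    refine h1.trans ?_
    rw [pow_succ, mul_div_assoc]
    exact mul_le_mul_of_nonneg_right hexp3 (by positivity)
  -- no relation
  obtain ⟨Gr, hGr⟩ : ∃ Gr : Pool.GEN.PtT F → MvPolynomial (Option (Fin m)) ℝ,
      Gr = fun y => Pool.GEN.Gno (c r) J J (fun y => G₀ y r) y := ⟨_, rfl⟩
  obtain ⟨Hr, hHr⟩ : ∃ Hr : Pool.GEN.LnT F → MvPolynomial (Option (Fin m)) ℝ,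
      Hr = fun s => Pool.GEN.Hno (c r) (fun s => H₀ s r) s := ⟨_, rfl⟩
  have hGrd : ∀ y, (Gr y).totalDegree ≤ D := by
    intro y
    rw [hGr]
    exact Pool.D2R.deg_Gno _ _ _ (hball.degG y r)
  have hGrp : ∀ y, Pool.GEN.DepC c r (Gr y) := by
    intro y
    rw [hGr]
    exact Pool.D2R.depC_Gno _ _ _ (hball.depG y r)
  have hHrd : ∀ s, (Hr s).totalDegree ≤ D := by
    intro s
    rw [hHr]
    exact Pool.GEN.deg_Hno _ _ _ hD (hball.degH s r)
  have hHrp : ∀ s, Pool.GEN.DepC c r (Hr s) := by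
    intro s
    rw [hHr]
    exact Pool.D2R.depC_Hno _ _ _ (hball.depH s r)
  have hagr := hd.agr
  have hragr : ∀ ω, A ω → ∀ b, Pool.GEN.NBx c (T (Pool.PB.ptr F J ω)) gT (a + v) (F.t ω) r b →
      |eval b (Gr (Pool.PB.ptr F J ω)) - eval b (Hr (Pool.KSAT.slam F a ω))| ≤ 1 / 2 ^ p := by
    rw [hGr, hHr]
    exact hd.ragr
  have hrpos : ∀ ω, A ω → |F.x ω (c r) - eval (Pool.GEN.bt F ω) (Gr (Pool.PB.ptr F J ω))| ≤ 1 / 2 ^ p := by
    rw [hGr]
    exact hd.rpos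
  obtain ⟨Δ, hΔ⟩ : ∃ Δ : Pool.GEN.LnT F → MvPolynomial (Option (Fin m)) ℝ,
      Δ = fun s => Ht (Pool.D2R.co (a - w) s) - Hr s := ⟨_, rfl⟩
  have hΔω : ∀ ω, Δ (Pool.KSAT.slam F a ω) = Ht (Pool.KSAT.slam F w ω) - Hr (Pool.KSAT.slam F a ω) := by
    intro ω
    rw [hΔ]
    show Ht (Pool.D2R.co (a - w) (Pool.KSAT.slam F a ω)) - _ = _
    rw [Pool.D2R.co_slam F hwa haJ]
  have hΔd : ∀ s, (Δ s).totalDegree ≤ D := by
    intro s
    rw [hΔ]
    exact (totalDegree_sub _ _).trans (max_le (hd.dH _) (hHrd s))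
  have hΔp : ∀ s, Pool.GEN.DepC c r (Δ s) := by
    intro s b b' h1 h2
    rw [hΔ]
    show eval b (Ht (Pool.D2R.co (a - w) s) - Hr s) = eval b' (Ht (Pool.D2R.co (a - w) s) - Hr s)
    rw [map_sub, map_sub, hd.pH _ b b' h1 h2, hHrp s b b' h1 h2]
  obtain ⟨B₂, d1, d2, d3⟩ := hR B₁ hBA1 (by
      calc κ * Pool.K2S.Pe F.p A ≤ 1 / 4 * Pool.K2S.Pe F.p A := mul_le_mul_of_nonneg_right hκ (hp A)
        _ ≤ Pool.K2S.Pe F.p B₁ := by linarith) (fun y => Gt y - Gr y) Δ (2 / 2 ^ p)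
    (fun y => (totalDegree_sub _ _).trans (max_le (hd.dG y) (hGrd y))) hΔd
    (fun y b b' h1 h2 => by
      rw [map_sub, map_sub, hd.pG y b b' h1 h2, hGrp y b b' h1 h2]) hΔp (by positivity)
    (fun ω hω => by
      rw [map_sub]
      have h1 := hd.pos ω (hBA1 ω hω)
      have h2 := hrpos ω (hBA1 ω hω)
      have e1 : eval (Pool.GEN.bt F ω) (Gt (Pool.PB.ptr F J ω)) - eval (Pool.GEN.bt F ω) (Gr (Pool.PB.ptr F J ω)) =
          (F.x ω (c r) - eval (Pool.GEN.bt F ω) (Gr (Pool.PB.ptr F J ω))) -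
          (F.x ω (c r) - eval (Pool.GEN.bt F ω) (Gt (Pool.PB.ptr F J ω))) := by ring
      rw [e1]
      refine (abs_sub _ _).trans ((add_le_add h2 h1).trans (le_of_eq ?_))
      ring)
    (fun ω hω b hb => by
      rw [hΔω, map_sub, map_sub]
      have h1 := hagr ω (hBA1 ω hω) b hb
      have h2 := hragr ω (hBA1 ω hω) b hb
      have e1 : eval b (Gt (Pool.PB.ptr F J ω)) - eval b (Gr (Pool.PB.ptr F J ω)) -
          (eval b (Ht (Pool.KSAT.slam F w ω)) - eval b (Hr (Pool.KSAT.slam F a ω))) =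
          (eval b (Gt (Pool.PB.ptr F J ω)) - eval b (Ht (Pool.KSAT.slam F w ω))) -
          (eval b (Gr (Pool.PB.ptr F J ω)) - eval b (Hr (Pool.KSAT.slam F a ω))) := by ring
      rw [e1]
      refine (abs_sub _ _).trans ((add_le_add h1 h2).trans (le_of_eq ?_))
      ring)
  have hB₂0 : 0 < Pool.K2S.Pe F.p B₂ := by linarith
  have hBA2 : Pool.K2S.Sub B₂ A := fun ω hω => hBA1 ω (d1 ω hω)
  obtain ⟨M₁, hM₁⟩ : ∃ M₁ : ℝ, M₁ = 2 ^ (h + 2) / 2 ^ p := ⟨_, rfl⟩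
  have h2h : (1 : ℝ) ≤ 2 ^ h := one_le_pow₀ (by norm_num)
  have hM₁0 : 0 < M₁ := by rw [hM₁]; positivity
  have hp0 : (0 : ℝ) < 2 ^ p := by positivity
  -- the difference on the box of the point
  have hΔ1 : ∀ ω, B₂ ω → ∀ b, Pool.GEN.NBx c (T (Pool.PB.ptr F J ω)) gT (a + v) (F.t ω) r b →
      |eval b (Δ (Pool.KSAT.slam F a ω))| ≤ M₁ := by
    intro ω hω b hb
    have h1 := d3 ω hω b hb
    have h2 := hagr ω (hBA2 ω hω) b hb
    have h3 := hragr ω (hBA2 ω hω) b hb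
    rw [map_sub] at h1
    rw [hΔω, map_sub]
    have e1 : eval b (Ht (Pool.KSAT.slam F w ω)) - eval b (Hr (Pool.KSAT.slam F a ω)) =
        (eval b (Gt (Pool.PB.ptr F J ω)) - eval b (Gr (Pool.PB.ptr F J ω))) -
        (eval b (Gt (Pool.PB.ptr F J ω)) - eval b (Ht (Pool.KSAT.slam F w ω))) +
        (eval b (Gr (Pool.PB.ptr F J ω)) - eval b (Hr (Pool.KSAT.slam F a ω))) := by ring
    rw [e1]
    refine (abs_add_le _ _).trans ((add_le_add (abs_sub _ _) le_rfl).trans ?_)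
    have e2 : 2 ^ h * (2 / (2 : ℝ) ^ p) + 1 / 2 ^ p + 1 / 2 ^ p ≤ M₁ := by
      rw [hM₁, pow_add]
      have e3 : (2 : ℝ) ^ h * (2 / 2 ^ p) + 1 / 2 ^ p + 1 / 2 ^ p = (2 ^ h * 2 + 2) / 2 ^ p := by
        ring
      rw [e3]
      refine div_le_div_of_nonneg_right ?_ (by positivity)
      linarith
    linarith
  -- on the box of the line
  obtain ⟨M₂, hM₂⟩ : ∃ M₂ : ℝ, M₂ = 2 ^ C₅ * M₁ := ⟨_, rfl⟩
  have hM₂0 : 0 < M₂ := by rw [hM₂]; positivity
  have hM₂Y : M₂ ≤ Y / 2 ^ p := by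
    rw [hM₂, hM₁, ← mul_div_assoc]
    exact div_le_div_of_nonneg_right y5 hp0.le
  have hΔ2 : ∀ ω, B₂ ω → ∀ b, Pool.GEN.NBx c (TH (Pool.KSAT.slam F a ω)) gT (a + v) (F.t ω) r b →
      |eval b (Δ (Pool.KSAT.slam F a ω))| ≤ M₂ := by
    intro ω hω b hb
    rw [hM₂]
    exact hbs (G := T (Pool.PB.ptr F J ω)) (ψ := TH (Pool.KSAT.slam F a ω)) hc' (hthin.degG _) (hthin.depG _)
      (hthin.degH _) (hthin.depH _) (hΔp _) (hΔd _) hM₁0.le (fun j hj b hb =>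
        hthin.agr ω (hBA2 ω hω) j hj b hb) (hΔ1 ω hω) b hb
  -- the natural components
  have hex : ∀ s : Pool.GEN.LnT F, ∃ (n0 : MvPolynomial (Option (Fin m)) ℝ)
      (nj : ℕ → MvPolynomial (Option (Fin m)) ℝ), n0.totalDegree ≤ D + r * D ∧
      (∀ j, (nj j).totalDegree ≤ D + r * D) ∧ ∀ b W : Option (Fin m) → ℝ, Pool.D2R.dd (Δ s) b W =
        eval b n0 * W none + ∑ j ∈ range r, eval b (nj j) *
          (W (some (c j)) - Pool.D2R.dd (TH s j) b W) := fun s =>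
    Pool.D2R.nat_cov D (hthin.degH s) (hthin.depH s) r hc' D (fun o => pderiv o (Δ s))
      (fun o => Pool.GEN.totalDegree_pdσ (hΔd s) o) (fun k hk b => Pool.D2R.pd_zero (hΔp s) hk b)
  choose n0 nj hn0 hnj hid using hex
  have hcmp : ∀ ω, B₂ ω → |eval (Pool.GEN.bt F ω) (n0 (Pool.KSAT.slam F a ω))| ≤ Y ^ 3 / 2 ^ p * 2 ^ (a + v) ∧
      ∀ j < r, |eval (Pool.GEN.bt F ω) (nj (Pool.KSAT.slam F a ω) j)| ≤ Y ^ 3 / 2 ^ p * 2 ^ gT j := by
    intro ω hω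
    have hx2 : ∀ l < r, |Pool.GEN.bt F ω (some (c l)) - eval (Pool.GEN.bt F ω) (TH (Pool.KSAT.slam F a ω) l)| ≤
        1 / 2 ^ (gT l - 1) := by
      intro l hl
      have h1 := hthin.pos ω (hBA2 ω hω) l hl
      have h2 := hthin.agr ω (hBA2 ω hω) l hl _ (hthin.self (hBA2 ω hω) hl.le)
      have e1 : Pool.GEN.bt F ω (some (c l)) - eval (Pool.GEN.bt F ω) (TH (Pool.KSAT.slam F a ω) l) =
          (F.x ω (c l) - eval (Pool.GEN.bt F ω) (T (Pool.PB.ptr F J ω) l)) +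
          (eval (Pool.GEN.bt F ω) (T (Pool.PB.ptr F J ω) l) - eval (Pool.GEN.bt F ω) (TH (Pool.KSAT.slam F a ω) l)) := by
        have : Pool.GEN.bt F ω (some (c l)) = F.x ω (c l) := rfl
        rw [this]
        ring
      rw [e1]
      refine (abs_add_le _ _).trans ((add_le_add h1 h2).trans (le_of_eq ?_))
      have h3 := hgT l hl
      have e2 : (2 : ℝ) ^ gT l = 2 ^ (gT l - 1) * 2 := by
        rw [← pow_succ]
        congr 1
        omega
      rw [e2]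
      field_simp
      norm_num
    have hbig : ∀ b, Pool.GEN.NBx c (TH (Pool.KSAT.slam F a ω)) (fun l => gT l - 1) (a + v) (F.t ω) r b →
        |eval b (Δ (Pool.KSAT.slam F a ω))| ≤ 2 ^ C₉ * M₂ := by
      intro b hb
      refine hdbl (Nat.lt_succ_self r) hc' (hthin.degH _) (hthin.depH _) (hΔp _) (hΔd _) hM₂0.le
        (hΔ2 ω hω) b hb.1 fun l hl => (hb.2 l hl).trans ?_
      rw [div_le_div_iff₀ (by positivity) (by positivity), one_mul]
      have h3 := hgT l hl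
      have e2 : (2 : ℝ) ^ gT l = 2 ^ (gT l - 1) * 2 := by
        rw [← pow_succ]
        congr 1
        omega
      rw [e2]
      have : (0 : ℝ) < 2 ^ (gT l - 1) := by positivity
      linarith
    have h1 := hcs (x := Pool.GEN.bt F ω) (g := fun l => gT l - 1) hc' (hthin.degH _) (hthin.depH _)
      (hΔp _) (hΔd _) (by positivity) hbig hx2 (hid _)
    have h2 : C₆ * (2 ^ C₉ * M₂) ≤ Y ^ 3 / 2 ^ p := by
      calc C₆ * (2 ^ C₉ * M₂) ≤ Y * (Y * (Y / 2 ^ p)) :=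
            mul_le_mul y6 (mul_le_mul y9 hM₂Y hM₂0.le hY0.le) (by positivity) hY0.le
        _ = _ := by ring
    refine ⟨h1.1.trans (mul_le_mul_of_nonneg_right h2 (by positivity)), fun j hj => ?_⟩
    refine (h1.2 j hj).trans (mul_le_mul h2 (pow_le_pow_right₀ (by norm_num) (Nat.sub_le _ _))
      (by positivity) (by positivity))
  -- on the window
  obtain ⟨B₃, f1, f2, f3⟩ := hrn J F B₂ hB₂0 a (fun i s => if i = 0 then
      MvPolynomial.aeval (Pool.GEN.lc a s) (n0 s) else MvPolynomial.aeval (Pool.GEN.lc a s) (nj s (i - 1)))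
    (fun i => if i = 0 then Y ^ 3 / 2 ^ p * 2 ^ (a + v) else Y ^ 3 / 2 ^ p * 2 ^ gT (i - 1)) θ haJ
    (fun i _ s => by
      show (if i = 0 then MvPolynomial.aeval (Pool.GEN.lc a s) (n0 s) else
        MvPolynomial.aeval (Pool.GEN.lc a s) (nj s (i - 1))).natDegree ≤ _
      split_ifs
      · exact Pool.KBX.natDegree_aeval_le _ _ (Pool.GEN.natDegree_lc a s) (hn0 s)
      · exact Pool.KBX.natDegree_aeval_le _ _ (Pool.GEN.natDegree_lc a s) (hnj s _))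
    (fun i _ => by
      show 0 < (if i = 0 then Y ^ 3 / 2 ^ p * 2 ^ (a + v) else Y ^ 3 / 2 ^ p * 2 ^ gT (i - 1))
      split_ifs <;> positivity) hθ (hTm B₂ hB₂0 hBA2 (by linarith))
    ((mul_le_mul_of_nonneg_right hC4 hθ1).trans hCJ) (fun ω hω i hi => by
      show |(if i = 0 then MvPolynomial.aeval (Pool.GEN.lc a (Pool.KSAT.slam F a ω)) (n0 (Pool.KSAT.slam F a ω)) else
        MvPolynomial.aeval (Pool.GEN.lc a (Pool.KSAT.slam F a ω)) (nj (Pool.KSAT.slam F a ω) (i - 1))).eval (Pool.PB.Trl.rt F a ω)| ≤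
        (if i = 0 then Y ^ 3 / 2 ^ p * 2 ^ (a + v) else Y ^ 3 / 2 ^ p * 2 ^ gT (i - 1))
      split_ifs with h0
      · rw [Pool.D2R.aeval_lc, Pool.D2R.ptw_rt F haJ]
        exact (hcmp ω hω).1
      · rw [Pool.D2R.aeval_lc, Pool.D2R.ptw_rt F haJ]
        exact (hcmp ω hω).2 (i - 1) (by omega))
  have hBA3 : Pool.K2S.Sub B₃ A := fun ω hω => hBA2 ω (f1 ω hω)
  have hB31 : Pool.K2S.Sub B₃ B₁ := fun ω hω => d1 ω (f1 ω hω)
  have hY4 : ∀ x : ℝ, 0 ≤ x → 2 ^ k * (Y ^ 3 / 2 ^ p * x) ≤ Y ^ 4 / 2 ^ p * x := by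
    intro x hx
    calc 2 ^ k * (Y ^ 3 / 2 ^ p * x) ≤ Y * (Y ^ 3 / 2 ^ p * x) :=
          mul_le_mul_of_nonneg_right yk (by positivity)
      _ = _ := by ring
  have hw0 : ∀ ω, B₃ ω → ∀ τ ∈ Set.Icc (0 : ℝ) 1,
      |(MvPolynomial.aeval (Pool.GEN.lc a (Pool.KSAT.slam F a ω)) (n0 (Pool.KSAT.slam F a ω))).eval τ| ≤
        Y ^ 4 / 2 ^ p * 2 ^ (a + v) := by
    intro ω hω τ hτ
    have h1 := f3 ω hω 0 (by omega) τ hτ
    simp only [if_true] at h1
    exact h1.trans ((mul_le_mul_of_nonneg_right hexp4 (by positivity)).trans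
      (hY4 _ (by positivity)))
  have hwj : ∀ ω, B₃ ω → ∀ j < r, ∀ τ ∈ Set.Icc (0 : ℝ) 1,
      |(MvPolynomial.aeval (Pool.GEN.lc a (Pool.KSAT.slam F a ω)) (nj (Pool.KSAT.slam F a ω) j)).eval τ| ≤
        Y ^ 4 / 2 ^ p * 2 ^ gT j := by
    intro ω hω j hj τ hτ
    have h1 := f3 ω hω (j + 1) (by omega) τ hτ
    simp only [Nat.add_sub_cancel, if_neg (Nat.succ_ne_zero j)] at h1
    exact h1.trans ((mul_le_mul_of_nonneg_right hexp4 (by positivity)).trans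
      (hY4 _ (by positivity)))
  -- the velocities
  have hJ1 : ∀ l ≤ r, e + g₀ l + C₁ * (k + 1 + 1) ≤ J := by
    intro l hl
    refine le_trans (Nat.add_le_add_left ?_ _) (hJ l hl)
    have : C₁ * (k + 1 + 1) ≤ 2 * C₁ * (k + 1) := by nlinarith
    refine this.trans (Nat.mul_le_mul_right _ ?_)
    omega
  have hJ2 : ∀ l < r, e + gT l + C₁' * (k + 1 + 1) ≤ J := by
    intro l hl
    refine le_trans (Nat.add_le_add_left ?_ _) (hJT l hl)
    have : C₁' * (k + 1 + 1) ≤ 2 * C₁' * (k + 1) := by nlinarith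
    refine this.trans (Nat.mul_le_mul_right _ ?_)
    omega
  have hvel : ∀ ω ν, B₃ ω → B₃ ν → Pool.PB.ptr F J ω = Pool.PB.ptr F J ν → ∀ l ≤ r,
      |Pool.GEN.bd F ν (some (c l)) - Pool.D2R.dd (G₀ (Pool.PB.ptr F J ω) l) (Pool.GEN.bt F ω) (Pool.GEN.bd F ν)| ≤ Y * 2 ^ a / 2 ^ g₀ l ∧
      |Pool.D2R.hs (G₀ (Pool.PB.ptr F J ω) l) (Pool.GEN.bt F ω) (Pool.GEN.bd F ν) (Pool.GEN.bd F ν)| ≤ Y * (2 ^ a) ^ 2 / 2 ^ g₀ l := by
    intro ω ν hω hν hpt l hl
    have h1 := hpn (k := k + 1) hc haJ hball hJ1 ω ν (hBA3 ω hω) (hBA3 ν hν) hpt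
      (hdv ν (hB31 ν hν)) l hl
    exact ⟨h1.1.trans (div_le_div_of_nonneg_right (mul_le_mul_of_nonneg_right y1 (by positivity))
      (by positivity)), h1.2.trans (div_le_div_of_nonneg_right (mul_le_mul_of_nonneg_right y1
      (by positivity)) (by positivity))⟩
  have hvelT : ∀ ω ν, B₃ ω → B₃ ν → Pool.PB.ptr F J ω = Pool.PB.ptr F J ν → ∀ l < r,
      |Pool.GEN.bd F ν (some (c l)) - Pool.D2R.dd (T (Pool.PB.ptr F J ω) l) (Pool.GEN.bt F ω) (Pool.GEN.bd F ν)| ≤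
        Y * 2 ^ (a + v) / 2 ^ gT l ∧
      |Pool.D2R.hs (T (Pool.PB.ptr F J ω) l) (Pool.GEN.bt F ω) (Pool.GEN.bd F ν) (Pool.GEN.bd F ν)| ≤ Y * (2 ^ (a + v)) ^ 2 / 2 ^ gT l := by
    intro ω ν hω hν hpt l hl
    have h1 := hpv (k := k + 1) hc' haJ hthin hJ2 ω ν (hBA3 ω hω) (hBA3 ν hν) hpt
      (hdvT ν (hB31 ν hν)) l hl
    exact ⟨h1.1.trans (div_le_div_of_nonneg_right (mul_le_mul_of_nonneg_right y1' (by positivity))
      (by positivity)), h1.2.trans (div_le_div_of_nonneg_right (mul_le_mul_of_nonneg_right y1'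
      (by positivity)) (by positivity))⟩
  have hU1 : ∀ x : ℝ, 0 ≤ x → Y * x ≤ U * x := fun x hx =>
    mul_le_mul_of_nonneg_right ((pow_one Y).symm.le.trans (hYn 1 (by norm_num))) hx
  have hUn : ∀ (n : ℕ) (x : ℝ), n ≤ 10 → 0 ≤ x → Y ^ n * x ≤ U * x := fun n x hn hx =>
    mul_le_mul_of_nonneg_right (hYn n hn) hx
  refine ⟨B₃, hBA3, by linarith, ⟨?_, ?_, ?_, ?_, ?_, ?_, ?_, ?_, ?_, ?_⟩⟩
  · -- own
    intro ω hω l hl τ hτ
    refine (hdv ω (hB31 ω hω) l hl τ hτ).trans (div_le_div_of_nonneg_right ?_ (by positivity))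
    exact yk1.trans ((pow_one Y).symm.le.trans (hYn 1 (by norm_num)))
  · -- ownT
    intro ω hω l hl τ hτ
    refine (hdvT ω (hB31 ω hω) l hl τ hτ).trans (div_le_div_of_nonneg_right ?_ (by positivity))
    exact yk1.trans ((pow_one Y).symm.le.trans (hYn 1 (by norm_num)))
  · -- vel
    intro ω ν hω hν hpt l hl
    exact (hvel ω ν hω hν hpt l hl).1.trans (div_le_div_of_nonneg_right (hU1 _ (by positivity))
      (by positivity))
  · -- nul
    intro ω ν hω hν hpt l hl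
    exact (hvel ω ν hω hν hpt l hl).2.trans (div_le_div_of_nonneg_right (hU1 _ (by positivity))
      (by positivity))
  · -- velT
    intro ω ν hω hν hpt l hl
    have h1 := (hvelT ω ν hω hν hpt l hl).1
    have h2 := (hbl l (c := c) (ψ := T (Pool.PB.ptr F J ω)) (Q := T (Pool.PB.ptr F J ω) l - TH (Pool.KSAT.slam F a ω) l)
      (g := gT) (a := a + v) (M := 1 / 2 ^ gT l) (x := Pool.GEN.bt F ω)
      (hc'.mono fun x hx => by rw [Set.mem_Iio] at hx ⊢; omega) (hthin.degG _) (hthin.depG _)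
      (fun b b' h3 h4 => by
        rw [map_sub, map_sub, hthin.depG _ l b b' h3 h4, hthin.depH _ l b b' h3 h4])
      ((totalDegree_sub _ _).trans (max_le (hthin.degG _ l) (hthin.degH _ l))) (by positivity)
      (fun b hb => by
        rw [map_sub]
        exact hthin.agr ω (hBA3 ω hω) l hl b hb)
      (fun j hj => hthin.pos ω (hBA3 ω hω) j (hj.trans hl))).1 (Pool.GEN.bd F ν)
    have h3 : Pool.D2R.nrm c (T (Pool.PB.ptr F J ω)) gT (a + v) l (Pool.GEN.bt F ω) (Pool.GEN.bd F ν) ≤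
        (l + 1) * (Y * 2 ^ (a + v)) := by
      refine Pool.D2R.nrm_le ?_ fun j hj => (hvelT ω ν hω hν hpt j (hj.trans hl)).1
      have : Pool.GEN.bd F ν none = 1 := rfl
      rw [this, abs_one, mul_div_assoc, div_self (by positivity), mul_one]
      exact hY1
    have hl1 : (l : ℝ) + 1 ≤ Y := by
      have : (l : ℝ) ≤ r := by exact_mod_cast hl.le
      linarith
    have h4 : Cb l * (1 / 2 ^ gT l) * Pool.D2R.nrm c (T (Pool.PB.ptr F J ω)) gT (a + v) l (Pool.GEN.bt F ω) (Pool.GEN.bd F ν) ≤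
        Y ^ 3 * 2 ^ (a + v) / 2 ^ gT l := by
      calc _ ≤ Y * (1 / 2 ^ gT l) * (Y * (Y * 2 ^ (a + v))) := by
            refine mul_le_mul (mul_le_mul_of_nonneg_right ((hCbl l hl.le).trans y2')
              (by positivity)) (h3.trans (mul_le_mul_of_nonneg_right hl1 (by positivity)))
              (Pool.D2R.nrm_nonneg _ _ _ _ _ _ _) (by positivity)
        _ = _ := by ring
    rw [Pool.D2R.dd_sub] at h2
    have e1 : Pool.GEN.bd F ν (some (c l)) - Pool.D2R.dd (TH (Pool.KSAT.slam F a ω) l) (Pool.GEN.bt F ω) (Pool.GEN.bd F ν) =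
        (Pool.GEN.bd F ν (some (c l)) - Pool.D2R.dd (T (Pool.PB.ptr F J ω) l) (Pool.GEN.bt F ω) (Pool.GEN.bd F ν)) +
        (Pool.D2R.dd (T (Pool.PB.ptr F J ω) l) (Pool.GEN.bt F ω) (Pool.GEN.bd F ν) - Pool.D2R.dd (TH (Pool.KSAT.slam F a ω) l) (Pool.GEN.bt F ω) (Pool.GEN.bd F ν)) := by
      ring
    rw [e1]
    refine (abs_add_le _ _).trans ((add_le_add h1 (h2.trans h4)).trans ?_)
    rw [← add_div, ← add_mul]
    refine div_le_div_of_nonneg_right (mul_le_mul_of_nonneg_right ?_ (by positivity))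
      (by positivity)
    refine le_trans ?_ (hYn 4 (by norm_num))
    have h5 : Y ≤ Y ^ 3 := by
      calc Y = Y ^ 1 := (pow_one Y).symm
        _ ≤ _ := hYm 1 3 (by norm_num)
    have h6 : 2 * Y ^ 3 ≤ Y ^ 4 := by
      have e2 : Y ^ 4 = Y * Y ^ 3 := by ring
      rw [e2]
      exact mul_le_mul_of_nonneg_right hY2 (by positivity)
    linarith
  · -- nulT
    intro ω ν hω hν hpt l hl
    exact (hvelT ω ν hω hν hpt l hl).2.trans (div_le_div_of_nonneg_right (hU1 _ (by positivity))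
      (by positivity))
  · -- box
    intro ω hω b hb
    have h1 := d3 ω (f1 ω hω) b hb
    have h2 := hagr ω (hBA3 ω hω) b hb
    rw [map_sub] at h1
    have e0 : Pool.GEN.Gno (c r) J J (fun y => G₀ y r) (Pool.PB.ptr F J ω) = Gr (Pool.PB.ptr F J ω) := by rw [hGr]
    rw [e0]
    have e1 : eval b (Ht (Pool.KSAT.slam F w ω)) - eval b (Gr (Pool.PB.ptr F J ω)) =
        (eval b (Gt (Pool.PB.ptr F J ω)) - eval b (Gr (Pool.PB.ptr F J ω))) -
        (eval b (Gt (Pool.PB.ptr F J ω)) - eval b (Ht (Pool.KSAT.slam F w ω))) := by ring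
    rw [e1]
    refine (abs_sub _ _).trans ((add_le_add h1 h2).trans ?_)
    have e2 : 2 ^ h * (2 / (2 : ℝ) ^ p) + 1 / 2 ^ p = (2 * 2 ^ h + 1) / 2 ^ p := by ring
    rw [e2]
    refine div_le_div_of_nonneg_right ?_ hp0.le
    have h3 : (2 : ℝ) ^ (h + 3) = 8 * 2 ^ h := by rw [pow_add]; ring
    have h4 := yh.trans ((pow_one Y).symm.le.trans (hYn 1 (by norm_num)))
    linarith
  · -- win
    intro ω hω τ hτ V
    have e0 : Pool.GEN.Hno (c r) (fun s => H₀ s r) (Pool.KSAT.slam F a ω) = Hr (Pool.KSAT.slam F a ω) := by rw [hHr]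
    rw [e0, ← hΔω, hid]
    have h1 := hw0 ω hω τ hτ
    rw [Pool.D2R.aeval_lc] at h1
    have h2 : ∀ j ∈ range r, |eval (Pool.D2R.ptw F a ω τ) (nj (Pool.KSAT.slam F a ω) j) * (V (some (c j)) -
        Pool.D2R.dd (TH (Pool.KSAT.slam F a ω) j) (Pool.D2R.ptw F a ω τ) V)| ≤ Y ^ 4 / 2 ^ p * (2 ^ gT j *
          |V (some (c j)) - Pool.D2R.dd (TH (Pool.KSAT.slam F a ω) j) (Pool.D2R.ptw F a ω τ) V|) := by
      intro j hj
      have h3 := hwj ω hω j (Finset.mem_range.1 hj) τ hτ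
      rw [Pool.D2R.aeval_lc] at h3
      rw [abs_mul, ← mul_assoc]
      exact mul_le_mul_of_nonneg_right h3 (abs_nonneg _)
    have h3 : |eval (Pool.D2R.ptw F a ω τ) (n0 (Pool.KSAT.slam F a ω)) * V none| ≤
        Y ^ 4 / 2 ^ p * (2 ^ (a + v) * |V none|) := by
      rw [abs_mul, ← mul_assoc]
      exact mul_le_mul_of_nonneg_right h1 (abs_nonneg _)
    refine (abs_add_le _ _).trans ((add_le_add h3 ((Finset.abs_sum_le_sum_abs _ _).trans
      (Finset.sum_le_sum h2))).trans ?_)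
    rw [← Finset.mul_sum, ← mul_add]
    exact mul_le_mul_of_nonneg_right (div_le_div_of_nonneg_right (hYn 4 (by norm_num)) hp0.le)
      (Pool.D2R.nrm_nonneg c (TH (Pool.KSAT.slam F a ω)) gT (a + v) r (Pool.D2R.ptw F a ω τ) V)
  · -- hsw
    intro ω hω τ hτ V Z
    have e0 : Pool.GEN.Hno (c r) (fun s => H₀ s r) (Pool.KSAT.slam F a ω) = Hr (Pool.KSAT.slam F a ω) := by rw [hHr]
    rw [e0, ← hΔω, hid]
    have hτ1 : |τ| ≤ 1 := by
      rw [abs_of_nonneg hτ.1]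
      exact hτ.2
    obtain ⟨x, hx⟩ : ∃ x, x = Pool.D2R.ptw F a ω τ := ⟨_, rfl⟩
    obtain ⟨S, hS⟩ : ∃ S, S = Pool.KSAT.slam F a ω := ⟨_, rfl⟩
    rw [← hx, ← hS]
    have hw0' := hw0 ω hω
    have hwj' := hwj ω hω
    have ha0 : (0 : ℝ) < 2 ^ a := by positivity
    have ht0 : |Pool.D2R.dd (n0 S) x (Pool.GEN.bd F ω)| ≤ Y ^ 5 / 2 ^ p * (2 ^ a * 2 ^ (a + v)) := by
      have h1 := hder _ _ (Pool.KBX.natDegree_aeval_le _ _ (Pool.GEN.natDegree_lc a _) (hn0 (Pool.KSAT.slam F a ω)))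
        hw0' τ hτ1
      rw [Pool.D2R.dd_line, abs_mul, abs_of_pos (show (0 : ℝ) < 1 / 2 ^ a by positivity), ← hx, ← hS,
        one_div_mul_eq_div, div_le_iff₀ ha0] at h1
      refine h1.trans ?_
      calc C₈ * (Y ^ 4 / 2 ^ p * 2 ^ (a + v)) * 2 ^ a ≤
            Y * (Y ^ 4 / 2 ^ p * 2 ^ (a + v)) * 2 ^ a :=
            mul_le_mul_of_nonneg_right (mul_le_mul_of_nonneg_right y8 (by positivity)) ha0.le
        _ = _ := by ring
    have htj : ∀ j < r, |Pool.D2R.dd (nj S j) x (Pool.GEN.bd F ω)| ≤ Y ^ 5 / 2 ^ p * (2 ^ a * 2 ^ gT j) := by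
      intro j hj
      have h1 := hder _ _ (Pool.KBX.natDegree_aeval_le _ _ (Pool.GEN.natDegree_lc a _)
        (hnj (Pool.KSAT.slam F a ω) j)) (hwj' j hj) τ hτ1
      rw [Pool.D2R.dd_line, abs_mul, abs_of_pos (show (0 : ℝ) < 1 / 2 ^ a by positivity), ← hx, ← hS,
        one_div_mul_eq_div, div_le_iff₀ ha0] at h1
      refine h1.trans ?_
      calc C₈ * (Y ^ 4 / 2 ^ p * 2 ^ gT j) * 2 ^ a ≤
            Y * (Y ^ 4 / 2 ^ p * 2 ^ gT j) * 2 ^ a :=
            mul_le_mul_of_nonneg_right (mul_le_mul_of_nonneg_right y8 (by positivity)) ha0.le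
        _ = _ := by ring
    have hv0 : |eval x (n0 S)| ≤ Y ^ 5 / 2 ^ p * 2 ^ (a + v) := by
      have h1 := hw0' τ hτ
      rw [Pool.D2R.aeval_lc, ← hx, ← hS] at h1
      exact h1.trans (mul_le_mul_of_nonneg_right (div_le_div_of_nonneg_right
        (hYm 4 5 (by norm_num)) hp0.le) (by positivity))
    have hvj : ∀ j < r, |eval x (nj S j)| ≤ Y ^ 5 / 2 ^ p * 2 ^ gT j := by
      intro j hj
      have h1 := hwj' j hj τ hτ
      rw [Pool.D2R.aeval_lc, ← hx, ← hS] at h1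
      exact h1.trans (mul_le_mul_of_nonneg_right (div_le_div_of_nonneg_right
        (hYm 4 5 (by norm_num)) hp0.le) (by positivity))
    rw [Pool.D2R.hess_id (hid S) x (Pool.GEN.bd F ω) V]
    have e1 : Pool.D2R.dd (n0 S) x (Pool.GEN.bd F ω) * V none + ∑ j ∈ range r,
        (Pool.D2R.dd (nj S j) x (Pool.GEN.bd F ω) * (V (some (c j)) - Pool.D2R.dd (TH S j) x V) -
          eval x (nj S j) * Pool.D2R.hs (TH S j) x (Pool.GEN.bd F ω) V) +
        (eval x (n0 S) * Z none + ∑ j ∈ range r, eval x (nj S j) *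
          (Z (some (c j)) - Pool.D2R.dd (TH S j) x Z)) =
        (Pool.D2R.dd (n0 S) x (Pool.GEN.bd F ω) * V none + ∑ j ∈ range r,
          Pool.D2R.dd (nj S j) x (Pool.GEN.bd F ω) * (V (some (c j)) - Pool.D2R.dd (TH S j) x V)) +
        (eval x (n0 S) * Z none + ∑ j ∈ range r, eval x (nj S j) *
          (Z (some (c j)) - Pool.D2R.dd (TH S j) x Z - Pool.D2R.hs (TH S j) x (Pool.GEN.bd F ω) V)) := by
      have e2 : ∑ j ∈ range r, (Pool.D2R.dd (nj S j) x (Pool.GEN.bd F ω) * (V (some (c j)) - Pool.D2R.dd (TH S j) x V) -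
          eval x (nj S j) * Pool.D2R.hs (TH S j) x (Pool.GEN.bd F ω) V) = ∑ j ∈ range r,
          Pool.D2R.dd (nj S j) x (Pool.GEN.bd F ω) * (V (some (c j)) - Pool.D2R.dd (TH S j) x V) -
          ∑ j ∈ range r, eval x (nj S j) * Pool.D2R.hs (TH S j) x (Pool.GEN.bd F ω) V := Finset.sum_sub_distrib _ _
      have e3 : ∑ j ∈ range r, eval x (nj S j) *
          (Z (some (c j)) - Pool.D2R.dd (TH S j) x Z - Pool.D2R.hs (TH S j) x (Pool.GEN.bd F ω) V) = ∑ j ∈ range r,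
          eval x (nj S j) * (Z (some (c j)) - Pool.D2R.dd (TH S j) x Z) -
          ∑ j ∈ range r, eval x (nj S j) * Pool.D2R.hs (TH S j) x (Pool.GEN.bd F ω) V := by
        rw [← Finset.sum_sub_distrib]
        refine Finset.sum_congr rfl fun j _ => ?_
        ring
      rw [e2, e3]
      ring
    rw [e1]
    have k1 : |Pool.D2R.dd (n0 S) x (Pool.GEN.bd F ω) * V none + ∑ j ∈ range r,
        Pool.D2R.dd (nj S j) x (Pool.GEN.bd F ω) * (V (some (c j)) - Pool.D2R.dd (TH S j) x V)| ≤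
        Y ^ 5 / 2 ^ p * (2 ^ a * Pool.D2R.nrm c (TH S) gT (a + v) r x V) := by
      unfold Pool.D2R.nrm
      rw [mul_add, mul_add, Finset.mul_sum, Finset.mul_sum]
      refine (abs_add_le _ _).trans (add_le_add ?_ ((Finset.abs_sum_le_sum_abs _ _).trans
        (Finset.sum_le_sum fun j hj => ?_)))
      · rw [abs_mul]
        refine (mul_le_mul_of_nonneg_right ht0 (abs_nonneg _)).trans (le_of_eq ?_)
        ring
      · rw [abs_mul]
        refine (mul_le_mul_of_nonneg_right (htj j (Finset.mem_range.1 hj))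
          (abs_nonneg _)).trans (le_of_eq ?_)
        ring
    have k2 : |eval x (n0 S) * Z none + ∑ j ∈ range r, eval x (nj S j) *
        (Z (some (c j)) - Pool.D2R.dd (TH S j) x Z - Pool.D2R.hs (TH S j) x (Pool.GEN.bd F ω) V)| ≤
        Y ^ 5 / 2 ^ p * Pool.D2R.nrz c (TH S) gT (a + v) r x (Pool.GEN.bd F ω) V Z := by
      unfold Pool.D2R.nrz
      rw [mul_add, Finset.mul_sum]
      refine (abs_add_le _ _).trans (add_le_add ?_ ((Finset.abs_sum_le_sum_abs _ _).trans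
        (Finset.sum_le_sum fun j hj => ?_)))
      · rw [abs_mul]
        refine (mul_le_mul_of_nonneg_right hv0 (abs_nonneg _)).trans (le_of_eq ?_)
        ring
      · rw [abs_mul]
        refine (mul_le_mul_of_nonneg_right (hvj j (Finset.mem_range.1 hj))
          (abs_nonneg _)).trans (le_of_eq ?_)
        ring
    refine (abs_add_le _ _).trans ((add_le_add k1 k2).trans ?_)
    rw [← mul_add]
    exact mul_le_mul_of_nonneg_right (div_le_div_of_nonneg_right (hYn 5 (by norm_num)) hp0.le)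
      (add_nonneg (mul_nonneg ha0.le (Pool.D2R.nrm_nonneg _ _ _ _ _ _ _)) (Pool.D2R.nrz_nonneg _ _ _ _ _ _ _ _ _))
  · -- dif
    intro ω hω l hl
    have hg0 : (0 : ℝ) < 2 ^ g₀ l := by positivity
    have h1 := hbl l (c := c) (ψ := G₀ (Pool.PB.ptr F J ω))
      (Q := Pool.GEN.Hno (c l) (fun s => H₀ s l) (Pool.KSAT.slam F a ω) - G₀ (Pool.PB.ptr F J ω) l) (g := g₀) (a := a)
      (M := C₇ * 2 ^ (k + 1) / 2 ^ g₀ l) (x := Pool.GEN.bt F ω)
      (hc.mono fun x hx => by rw [Set.mem_Iio] at hx ⊢; omega) (hball.degG _) (hball.depG _)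
      (fun b b' h3 h4 => by
        rw [map_sub, map_sub, hball.depG _ l b b' h3 h4,
          Pool.D2R.depC_Hno _ _ _ (hball.depH _ l) b b' h3 h4])
      ((totalDegree_sub _ _).trans (max_le (Pool.GEN.deg_Hno _ _ _ hD (hball.degH _ l))
        (hball.degG _ l))) (by positivity)
      (fun b hb => by
        rw [map_sub]
        exact hdb haJ hball ω (hBA3 ω hω) l hl (hdv ω (hB31 ω hω) l hl) b hb)
      (fun j hj => hball.pos ω (hBA3 ω hω) j (by omega))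
    have h2 : Cb l * (C₇ * 2 ^ (k + 1) / 2 ^ g₀ l) ≤ U / 2 ^ g₀ l := by
      rw [mul_div_assoc', div_le_div_iff_of_pos_right hg0]
      refine le_trans ?_ (hYn 3 (by norm_num))
      calc Cb l * (C₇ * 2 ^ (k + 1)) ≤ Y * (Y * Y) :=
            mul_le_mul ((hCbl l hl).trans y2') (mul_le_mul y7 yk1 (by positivity) hY0.le)
              (by positivity) hY0.le
        _ = _ := by ring
    refine ⟨fun V => (h1.1 V).trans (mul_le_mul_of_nonneg_right h2 (Pool.D2R.nrm_nonneg _ _ _ _ _ _ _)),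
      fun V V' Z => (h1.2 V V' Z).trans (mul_le_mul_of_nonneg_right h2 ?_)⟩
    exact add_nonneg (mul_nonneg (Pool.D2R.nrm_nonneg _ _ _ _ _ _ _) (Pool.D2R.nrm_nonneg _ _ _ _ _ _ _))
      (Pool.D2R.nrz_nonneg _ _ _ _ _ _ _ _ _)

end Pool.W.D2R
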