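import Pool.Agent.H23.D2.Par
import Pool.Agent.H31.W.H23.D2.Gen
import Pool.Agent.H3.W2.H2.GEN.Iso
import Pool.Agent.H31.W1.H2.GEN.EvS
import Pool.Agent.H31.W1.H80.GEN.Chn

/-!
# The row labels of several windows against the closed balls of several windows

`pair_out`: two windows `w₁ ≤ w₂` of one event of `ev_con` (one radius `w₁ + v₁ = w₂ + v₂`): the
label of the target of the window `w₁` against the closed ball of the window `w₂`.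
-/

set_option autoImplicit false

namespace Pool.W.D2R

open Pool.D2R

open Finset Real MvPolynomial
open Pool.Agent.H49.Ent Pool.Agent.H32.Dense Pool.STK Pool.KA Pool.KSAT Pool.K2S Pool.PB Pool.S6C
open Pool.GEN Pool.CHT Pool.CHX Pool.ISO
open Pool.FLF (Fam.sub)
open Pool.PB.Trl (rt rt_mem t_rt)

variable {m J : ℕ}


/-- A chain on a shorter window. -/
theorem chok_co {F : Pool.KA.Fam m J} {c : ℕ → Fin m} {r : ℕ} {K : ℕ → ℕ} {a w w' e : ℕ} {g : ℕ → ℕ}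
    {A : F.Ω → Prop} {G : Pool.GEN.PtT F → ℕ → MvPolynomial (Option (Fin m)) ℝ}
    {H : Pool.GEN.LnT F → ℕ → MvPolynomial (Option (Fin m)) ℝ} (h : Pool.W.GEN.ChOK F c r K a w e g A G H)
    (hw : w ≤ w') (hw' : w' ≤ J) :
    Pool.W.GEN.ChOK F c r K a w' e g A G (fun s => H (Pool.D2R.co (w' - w) s)) := by
  refine ⟨h.degG, fun s i => h.degH _ i, h.depG, fun s i => h.depH _ i, h.pos,
    fun ω hω i hi b hb => ?_, h.lip⟩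
  show |eval b (G (Pool.PB.ptr F J ω) i) - eval b (H (Pool.D2R.co (w' - w) (Pool.KSAT.slam F w' ω)) i)| ≤ _
  rw [Pool.D2R.co_slam F hw hw']
  exact h.agr ω hω i hi b hb

/-- **Two windows of one event.** -/
theorem pair_out (m D r : ℕ) (hD : 1 ≤ D) : ∃ C : ℕ, 1 ≤ C ∧ ∀ {J : ℕ} {F : Pool.KA.Fam m J}
    {c : ℕ → Fin m} {Dr w₁ w₂ v₁ v₂ M₁ M₂ e₁ e₂ h₁ h₂ p₁ p₂ k : ℕ} {z₁ z₂ : ℕ → ℕ}
    {R₁ R₂ : ℕ → Prop} {g₁ gc₁ gT₁ g₀₁ g₂ gc₂ gT₂ g₀₂ : ℕ → ℕ} {κ₁ κ₂ θ : ℝ} {B : F.Ω → Prop}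
    {G₁ G₂ : Pool.GEN.PtT F → ℕ → MvPolynomial (Option (Fin m)) ℝ}
    {H₁ H₂ : Pool.GEN.LnT F → ℕ → MvPolynomial (Option (Fin m)) ℝ}
    {T₁ T₂ : Pool.GEN.PtT F → ℕ → MvPolynomial (Option (Fin m)) ℝ}
    {TH₁ TH₂ : Pool.GEN.LnT F → ℕ → MvPolynomial (Option (Fin m)) ℝ}
    {Gt₁ Gt₂ : Pool.GEN.PtT F → MvPolynomial (Option (Fin m)) ℝ}
    {Ht₁ Ht₂ : Pool.GEN.LnT F → MvPolynomial (Option (Fin m)) ℝ}
    (_ : 0 < Pool.K2S.Pe F.p B), Set.InjOn c (Set.Iio (r + 1)) → w₁ ≤ w₂ → w₂ ≤ J → w₁ + v₁ = w₂ + v₂ →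
    D ≤ Dr → Pool.W.ISO.EvS F c r D Dr w₁ v₁ M₁ z₁ e₁ h₁ p₁ R₁ g₁ gc₁ gT₁ g₀₁ κ₁ B G₁ H₁ T₁ TH₁ Gt₁ Ht₁ →
    Pool.W.ISO.EvS F c r D Dr w₂ v₂ M₂ z₂ e₂ h₂ p₂ R₂ g₂ gc₂ gT₂ g₀₂ κ₂ B G₂ H₂ T₂ TH₂ Gt₂ Ht₂ →
    0 ≤ κ₂ → κ₂ * (8 * 4 ^ r) ≤ 1 → (∀ l < r, 1 ≤ gT₂ l) →
    (∀ l ≤ r, e₂ + g₀₂ l + C * (k + 1) ≤ J) → (∀ l < r, e₂ + gT₂ l + C * (k + 1) ≤ J) → 0 ≤ θ →
    (∀ (B' : F.Ω → Prop) (hB' : 0 < Pool.K2S.Pe F.p B'), Pool.K2S.Sub B' B →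
      Pool.K2S.Pe F.p B / (16 * 4 ^ r) ≤ Pool.K2S.Pe F.p B' → (Pool.FLF.Fam.sub F B' hB').Tm θ) →
    C * (θ + 1) ≤ ((J : ℝ) - w₂) * Real.log 2 → Real.exp (C * (θ + 1)) ≤ 2 ^ k →
    ∃ B' : F.Ω → Prop, Pool.K2S.Sub B' B ∧ Pool.K2S.Pe F.p B ≤ 16 * 4 ^ r * Pool.K2S.Pe F.p B' ∧
      ∀ q : ℕ, q + C * (h₂ + 1) ≤ p₁ → q + C * (h₂ + 1) ≤ gc₂ r →
        Pool.D2R.ROut1 F c r w₁ w₂ v₂ g₀₂ gT₂ q (2 ^ (C * (h₂ + k + 1))) B' G₂ H₂ T₂ TH₂ Ht₁ := by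
  classical
  obtain ⟨C₁, hmv⟩ := Pool.W.ISO.move_all D (r + 1) hD
  obtain ⟨C₂, hls⟩ := Pool.ISO.lab_swap D (r + 1)
  obtain ⟨C₃, hC₃, hr1⟩ := Pool.W.D2R.r1_fam m D r hD
  obtain ⟨C, hC⟩ : ∃ C : ℕ, C = C₂ * (C₁ + 1) + C₃ := ⟨_, rfl⟩
  refine ⟨C, by omega, ?_⟩
  intro J F c Dr w₁ w₂ v₁ v₂ M₁ M₂ e₁ e₂ h₁ h₂ p₁ p₂ k z₁ z₂ R₁ R₂ g₁ gc₁ gT₁ g₀₁ g₂ gc₂ gT₂ g₀₂
    κ₁ κ₂ θ B G₁ G₂ H₁ H₂ T₁ T₂ TH₁ TH₂ Gt₁ Gt₂ Ht₁ Ht₂ hB0 hc hw hw2 hrad hDr hE₁ hE₂ hκ0 hκ hgT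
    hJ hJT hθ hTm hCJ hexp
  have hp := Pool.K2S.Pe_nonneg F.isLaw
  have h4 : (0 : ℝ) < 4 ^ r := by positivity
  have h2 : (0 : ℝ) < 2 ^ r := by positivity
  have e4 : (4 : ℝ) ^ r = 2 ^ r * 2 ^ r := by
    rw [← mul_pow]
    norm_num
  have hr1' : (1 : ℝ) ≤ 2 ^ r := one_le_pow₀ (by norm_num)
  by_cases hlos : C * (h₂ + 1) ≤ min p₁ (gc₂ r)
  swap
  · refine ⟨B, fun _ h => h, ?_, fun q q1 q2 => absurd (le_min (by omega) (by omega)) hlos⟩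
    have h5 : (1 : ℝ) ≤ 16 * 4 ^ r := by
      have : (1 : ℝ) ≤ 4 ^ r := one_le_pow₀ (by norm_num)
      linarith
    exact le_mul_of_one_le_left (hp B) h5
  have hc' : Set.InjOn c (Set.Iio r) := hc.mono fun x hx => by
    rw [Set.mem_Iio] at hx ⊢
    omega
  have hR : Pool.CHT.RelvF F c r (w₂ + v₂) w₂ gT₂ D h₂ κ₂ B T₂ := hE₂.relt.mono hDr le_rfl
  -- the boxes of the thin chain near those of the other window
  have hT₁ := Pool.W.D2R.chok_co hE₁.thin hw hw2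
  rw [hrad] at hT₁
  obtain ⟨B₁, k1, k2, k3⟩ := hmv (κ' := 1) (Nat.lt_succ_self r) hc' hR (fun _ h => h)
    (by rw [one_mul]) (by
      have h3 : κ₂ * 2 ^ (r + 1) ≤ κ₂ * (8 * 4 ^ r) := by
        refine mul_le_mul_of_nonneg_left ?_ hκ0
        rw [e4, pow_succ]
        nlinarith
      exact h3.trans hκ) hT₁
  have hP1 : Pool.K2S.Pe F.p B ≤ 2 ^ r * Pool.K2S.Pe F.p B₁ := by
    rw [div_le_iff₀ h2] at k2
    linarith
  obtain ⟨B₂, l1, l2, l3⟩ := hmv (κ' := 1 / 2 ^ r) (Nat.lt_succ_self r) hc' hR k1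
    (by rw [one_div, inv_mul_le_iff₀ h2]; exact hP1) (by
      rw [le_div_iff₀ h2]
      have h3 : κ₂ * 2 ^ (r + 1) * 2 ^ r ≤ κ₂ * (8 * 4 ^ r) := by
        have : κ₂ * 2 ^ (r + 1) * 2 ^ r = κ₂ * (2 * 4 ^ r) := by
          rw [e4, pow_succ]
          ring
        rw [this]
        exact mul_le_mul_of_nonneg_left (by linarith) hκ0
      exact h3.trans hκ) ((hE₂.top.mono (Nat.le_succ r) (fun _ => le_rfl) le_rfl le_rfl).sub k1)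
  have hP2 : Pool.K2S.Pe F.p B ≤ 4 ^ r * Pool.K2S.Pe F.p B₂ := by
    rw [div_le_iff₀ h2] at l2
    calc Pool.K2S.Pe F.p B ≤ 2 ^ r * Pool.K2S.Pe F.p B₁ := hP1
      _ ≤ 2 ^ r * (Pool.K2S.Pe F.p B₂ * 2 ^ r) := mul_le_mul_of_nonneg_left l2 h2.le
      _ = 4 ^ r * Pool.K2S.Pe F.p B₂ := by rw [e4]; ring
  have hB20 : 0 < Pool.K2S.Pe F.p B₂ := by
    by_contra hcon
    have : Pool.K2S.Pe F.p B₂ = 0 := le_antisymm (not_lt.1 hcon) (hp _)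
    rw [this, mul_zero] at hP2
    linarith
  have hBB : Pool.K2S.Sub B₂ B := fun ω hω => k1 ω (l1 ω hω)
  -- the precision
  obtain ⟨p, hpd⟩ : ∃ p, p = min p₁ (gc₂ r) - C₂ * (C₁ * (h₂ + 1) + 1) := ⟨_, rfl⟩
  have hCC : C₂ * (C₁ * (h₂ + 1) + 1) ≤ C * (h₂ + 1) := by
    rw [hC]
    nlinarith [Nat.zero_le (C₂ * h₂), Nat.zero_le (C₃ * h₂)]
  have hpp₁ : p + C₂ * (C₁ * (h₂ + 1) + 1) ≤ p₁ := by
    have := min_le_left p₁ (gc₂ r)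
    omega
  have hpp₂ : p + C₂ * (C₁ * (h₂ + 1) + 1) ≤ gc₂ r := by
    have := min_le_right p₁ (gc₂ r)
    omega
  have hdiv : ∀ {x n : ℕ}, p + x ≤ n → (2 : ℝ) ^ x * (1 / 2 ^ n) ≤ 1 / 2 ^ p := by
    intro x n hx
    rw [mul_one_div, div_le_div_iff₀ (by positivity) (by positivity), one_mul, ← pow_add]
    exact pow_le_pow_right₀ (by norm_num) (by omega)
  have hdat : Pool.W.D2R.RDat1 F c r D w₁ w₂ v₂ e₂ g₀₂ gT₂ p B₂ G₂ H₂ T₂ TH₂ Gt₁ Ht₁ :=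
    { ball := hE₂.ball.sub hBB
      thin := hE₂.thin.sub hBB
      dG := hE₁.dG
      dH := hE₁.dH
      pG := hE₁.pG
      pH := hE₁.pH
      pos := fun ω hω => (hE₁.pos ω (hBB ω hω)).trans (Pool.PB.inv_mono (by omega))
      agr := fun ω hω b hb => by
        have h5 := hls (p := C₁ * (h₂ + 1)) (Nat.lt_succ_self r) hc' (hE₁.thin.degG (Pool.PB.ptr F J ω))
          (hE₁.thin.depG (Pool.PB.ptr F J ω)) (g := gT₁)
          (Q := Gt₁ (Pool.PB.ptr F J ω) - Ht₁ (Pool.KSAT.slam F w₁ ω)) (M := 1 / 2 ^ p₁)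
          (fun y y' hn hy => by
            rw [map_sub, map_sub, hE₁.pG (Pool.PB.ptr F J ω) y y' hn hy, hE₁.pH (Pool.KSAT.slam F w₁ ω) y y' hn hy])
          ((totalDegree_sub _ _).trans (max_le (hE₁.dG _) (hE₁.dH _))) (by positivity)
          (fun b hb j hj => k3 ω (l1 ω hω) b hb j hj) (fun b hb => by
            rw [map_sub]
            refine hE₁.agr ω (hBB ω hω) b ?_
            rw [hrad]
            exact hb) b hb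
        rw [map_sub] at h5
        exact h5.trans (hdiv hpp₁)
      rpos := fun ω hω => (hE₂.top.pos ω (hBB ω hω) r (Nat.lt_succ_self r)).trans
        (Pool.PB.inv_mono (by omega))
      ragr := fun ω hω b hb => by
        have h5 := hls (p := C₁ * (h₂ + 1)) (Nat.lt_succ_self r) hc'
          (hE₂.top.degG (Pool.PB.ptr F J ω)) (hE₂.top.depG (Pool.PB.ptr F J ω)) (g := gc₂)
          (Q := Pool.GEN.Gno (c r) J J (fun y => G₂ y r) (Pool.PB.ptr F J ω) -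
            Pool.GEN.Hno (c r) (fun s => H₂ s r) (Pool.KSAT.slam F w₂ ω)) (M := 1 / 2 ^ gc₂ r)
          (fun y y' hn hy => by
            rw [map_sub, map_sub, hE₂.top.depG (Pool.PB.ptr F J ω) r y y' hn hy,
              hE₂.top.depH (Pool.KSAT.slam F w₂ ω) r y y' hn hy])
          ((totalDegree_sub _ _).trans (max_le (hE₂.top.degG _ r) (hE₂.top.degH _ r)))
          (by positivity) (fun b hb j hj => l3 ω hω b hb j hj) (fun b hb => by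
            rw [map_sub]
            exact hE₂.top.agr ω (hBB ω hω) r (Nat.lt_succ_self r) b hb) b hb
        rw [map_sub] at h5
        exact h5.trans (hdiv hpp₂) }
  have hrel : Pool.CHT.RelvF F c r (w₂ + v₂) w₂ gT₂ D h₂ (1 / 4) B₂ T₂ :=
    hR.sub (κ₁ := 1 / 4 ^ r) hBB (by rw [one_div, inv_mul_le_iff₀ h4]; exact hP2)
      (by norm_num) (by
        rw [div_mul_div_comm, one_mul, le_div_iff₀ (by positivity)]
        calc κ₂ * (4 * 4 ^ r) ≤ κ₂ * (8 * 4 ^ r) := mul_le_mul_of_nonneg_left (by linarith) hκ0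
          _ ≤ 1 := hκ)
  obtain ⟨B₃, n1, n2, n3⟩ := hr1 (θ := θ) (k := k) hB20 hc hw hw2 hdat hrel le_rfl hgT
    (fun l hl => le_trans (Nat.add_le_add_left (Nat.mul_le_mul_right _ (by omega)) _) (hJ l hl))
    (fun l hl => le_trans (Nat.add_le_add_left (Nat.mul_le_mul_right _ (by omega)) _) (hJT l hl))
    hθ (fun B' hB' s1 s2 => hTm B' hB' (fun ω hω => hBB ω (s1 ω hω)) (by
      rw [div_le_iff₀ (by positivity)]
      have h5 : Pool.K2S.Pe F.p B₂ ≤ 16 * Pool.K2S.Pe F.p B' := by linarith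
      calc Pool.K2S.Pe F.p B ≤ 4 ^ r * Pool.K2S.Pe F.p B₂ := hP2
        _ ≤ 4 ^ r * (16 * Pool.K2S.Pe F.p B') := mul_le_mul_of_nonneg_left h5 h4.le
        _ = _ := by ring))
    (by
      refine le_trans (mul_le_mul_of_nonneg_right ?_ (by linarith)) hCJ
      have : C₃ ≤ C := by omega
      exact_mod_cast this)
    (by
      refine le_trans (Real.exp_le_exp.2 (mul_le_mul_of_nonneg_right ?_ (by linarith))) hexp
      have : C₃ ≤ C := by omega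
      exact_mod_cast this)
  refine ⟨B₃, fun ω hω => hBB ω (n1 ω hω), ?_, fun q q1 q2 => ?_⟩
  · calc Pool.K2S.Pe F.p B ≤ 4 ^ r * Pool.K2S.Pe F.p B₂ := hP2
      _ ≤ 4 ^ r * (16 * Pool.K2S.Pe F.p B₃) := mul_le_mul_of_nonneg_left (by linarith) h4.le
      _ = _ := by ring
  · refine n3.mono ?_ (by positivity) (pow_le_pow_right₀ (by norm_num)
      (Nat.mul_le_mul_right _ (by omega)))
    have := le_min (show q + C * (h₂ + 1) ≤ p₁ from q1) (show q + C * (h₂ + 1) ≤ gc₂ r from q2)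
    omega

end Pool.W.D2R
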