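import Pool.Agent.H23.D2.Bal
import Pool.Agent.H31.W.H23.D2.Par
import Pool.Agent.H3.W2.H2.GEN.Iso
import Pool.Agent.H31.W1.H80.GEN.Chn

/-!
# Ball against ball

`ev_list`: finitely many properties on one event. `inc_out`: the thin boxes are inside the natural
boxes of the re-centred ball. `bal_out`: a chain of labels with the radius `2 ^ (-a)`, against the
closed ball chart of the window `a`: they agree on the natural boxes of the ball. `bal_chain`: a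
chain of balls: the spatial gradients of the deep chart are natural for the first chart.
`shf_ball`: the gradient of a ball chart at two points of one cell.
-/

set_option autoImplicit false

namespace Pool.W.D2R

open Pool.D2R

open Finset Real MvPolynomial
open Pool.Agent.H49.Ent Pool.Agent.H32.Dense Pool.STK Pool.KA Pool.KSAT Pool.K2S Pool.PB Pool.S6C
open Pool.GEN Pool.CHT Pool.CHX Pool.ISO

variable {m J : ℕ}


/-- **The thin boxes are inside the natural boxes of the re-centred ball**, for every prefix. -/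
theorem inc_out (D r : ℕ) (hD : 1 ≤ D) : ∃ C : ℕ, ∀ {m J : ℕ} {F : Pool.KA.Fam m J} {c : ℕ → Fin m}
    {a w e h : ℕ} {gT g : ℕ → ℕ} {κ κ' : ℝ} {B₀ B : F.Ω → Prop}
    {T G : Pool.GEN.PtT F → ℕ → MvPolynomial (Option (Fin m)) ℝ}
    {H : Pool.GEN.LnT F → ℕ → MvPolynomial (Option (Fin m)) ℝ}, Set.InjOn c (Set.Iio r) →
    (∀ y l, Pool.GEN.DepC c l (T y l)) → Pool.CHT.RelvF F c r a w gT D h κ B₀ T → Pool.K2S.Sub B B₀ →
    κ' * Pool.K2S.Pe F.p B₀ ≤ Pool.K2S.Pe F.p B → κ * 2 ^ (r + 1) ≤ κ' →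
    Pool.W.GEN.ChOK F c r (fun _ => D) a w e g B G H →
    ∃ B' : F.Ω → Prop, Pool.K2S.Sub B' B ∧ Pool.K2S.Pe F.p B ≤ 2 ^ r * Pool.K2S.Pe F.p B' ∧ ∀ ω, B' ω → ∀ i ≤ r,
      ∀ b, Pool.GEN.NBx c (T (Pool.PB.ptr F J ω)) gT a (F.t ω) i b →
        ∀ j < i, |b (some (c j)) - eval b (G (Pool.PB.ptr F J ω) j)| ≤ 2 ^ (C * (h + 1)) / 2 ^ g j := by
  obtain ⟨C, hmv⟩ := Pool.W.ISO.move_all D (r + 1) hD
  refine ⟨C, ?_⟩
  intro m J F c a w e h gT g κ κ' B₀ B T G H hc hT hR hB hP hκ hG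
  obtain ⟨B', h1, h2, h3⟩ := hmv (Nat.lt_succ_self r) hc hR hB hP hκ hG
  have h2r : (0 : ℝ) < 2 ^ r := by positivity
  refine ⟨B', h1, ?_, fun ω hω i hi b hb j hj => ?_⟩
  · rw [div_le_iff₀ h2r] at h2
    linarith
  · obtain ⟨b', k1, k2, k3⟩ := Pool.D2R.nbx_up hc (hT (Pool.PB.ptr F J ω)) hi hb
    have h4 := h3 ω hω b' k1 j (by omega)
    rw [k3 j hj, hG.depG (Pool.PB.ptr F J ω) j b' b k2 fun l hl => k3 l (by omega)] at h4
    exact h4

/-- **A chain against the ball.** -/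
theorem bal_out (D r : ℕ) (hD : 1 ≤ D) : ∃ C : ℕ, ∀ {m J : ℕ} {F : Pool.KA.Fam m J} {c : ℕ → Fin m}
    {a w e₁ e₂ h : ℕ} {g' g : ℕ → ℕ} {κ κ' : ℝ} {B₀ B : F.Ω → Prop}
    {G₁ G₂ : Pool.GEN.PtT F → ℕ → MvPolynomial (Option (Fin m)) ℝ}
    {H₁ H₂ : Pool.GEN.LnT F → ℕ → MvPolynomial (Option (Fin m)) ℝ}, Set.InjOn c (Set.Iio r) →
    w ≤ a → a ≤ J → Pool.CHT.RelvF F c r a a g D h κ B₀ G₂ → Pool.K2S.Sub B B₀ → κ' * Pool.K2S.Pe F.p B₀ ≤ Pool.K2S.Pe F.p B →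
    0 ≤ κ → κ * (4 * 4 ^ r) ≤ κ' → Pool.W.GEN.ChOK F c (r + 1) (fun _ => D) a w e₁ g' B G₁ H₁ →
    Pool.W.GEN.ChOK F c (r + 1) (fun _ => D) a a e₂ g B G₂ H₂ →
    ∃ B' : F.Ω → Prop, Pool.K2S.Sub B' B ∧ Pool.K2S.Pe F.p B ≤ 2 * 4 ^ r * Pool.K2S.Pe F.p B' ∧ ∀ ω, B' ω → ∀ l ≤ r,
      ∀ b, Pool.GEN.NBx c (G₂ (Pool.PB.ptr F J ω)) g a (F.t ω) l b →
        |eval b (G₁ (Pool.PB.ptr F J ω) l) - eval b (G₂ (Pool.PB.ptr F J ω) l)| ≤
          2 ^ (C * (h + 1)) / 2 ^ min (g' l) (g l) := by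
  obtain ⟨C₁, hinc⟩ := Pool.W.D2R.inc_out D r hD
  obtain ⟨C₂, hls⟩ := Pool.ISO.lab_swap D (r + 1)
  refine ⟨C₂ * (C₁ + 1) + 3, ?_⟩
  intro m J F c a w e₁ e₂ h g' g κ κ' B₀ B G₁ G₂ H₁ H₂ hc hwa haJ hR hB hP hκ0 hκ h₁ h₂
  have hp := Pool.K2S.Pe_nonneg F.isLaw
  have h2r : (0 : ℝ) < 2 ^ r := by positivity
  have hr1' : (1 : ℝ) ≤ 2 ^ r := one_le_pow₀ (by norm_num)
  have e4 : (4 : ℝ) ^ r = 2 ^ r * 2 ^ r := by
    rw [← mul_pow]
    norm_num
  have h₁' := Pool.W.D2R.chok_co h₁ hwa haJ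
  obtain ⟨B₁, k1, k2, k3⟩ := hinc hc h₂.depG hR hB hP (by
    refine le_trans (mul_le_mul_of_nonneg_left ?_ hκ0) hκ
    rw [e4, pow_succ]
    nlinarith) (h₁'.mono (Nat.le_succ r) (fun _ => le_rfl) le_rfl le_rfl)
  -- the loop over the coordinates
  have key : ∀ n ≤ r + 1, ∃ B' : F.Ω → Prop, Pool.K2S.Sub B' B₁ ∧ Pool.K2S.Pe F.p B₁ ≤ 2 ^ n * Pool.K2S.Pe F.p B' ∧
      ∀ ω, B' ω → ∀ l < n, ∀ b, Pool.GEN.NBx c (G₂ (Pool.PB.ptr F J ω)) g a (F.t ω) l b →
        |eval b (G₁ (Pool.PB.ptr F J ω) l) - eval b (G₂ (Pool.PB.ptr F J ω) l)| ≤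
          2 ^ ((C₂ * (C₁ + 1) + 3) * (h + 1)) / 2 ^ min (g' l) (g l) := by
    intro n
    induction n with
    | zero => exact fun _ => ⟨B₁, fun _ h => h, by simp, fun ω _ l hl => absurd hl (by omega)⟩
    | succ n ih =>
      intro hn
      obtain ⟨B₂, l1, l2, l3⟩ := ih (by omega)
      obtain ⟨M, hM⟩ : ∃ M : ℝ, M = 2 ^ (C₂ * (C₁ * (h + 1) + 1) + 1) / 2 ^ min (g' n) (g n) :=
        ⟨_, rfl⟩
      have hM0 : 0 < M := by rw [hM]; positivity
      have hk1 : (1 : ℝ) / 2 ^ g n ≤ 1 / 2 ^ min (g' n) (g n) := Pool.PB.inv_mono (min_le_right _ _)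
      have hk2 : (1 : ℝ) / 2 ^ g' n ≤ 1 / 2 ^ min (g' n) (g n) := Pool.PB.inv_mono (min_le_left _ _)
      have hsum : (2 : ℝ) ^ (C₂ * (C₁ * (h + 1) + 1)) * (1 / 2 ^ g' n) +
          1 / 2 ^ min (g' n) (g n) ≤ M := by
        have e1 : (1 : ℝ) ≤ 2 ^ (C₂ * (C₁ * (h + 1) + 1)) := one_le_pow₀ (by norm_num)
        have e2 : (0 : ℝ) ≤ 1 / 2 ^ min (g' n) (g n) := by positivity
        have e3 := mul_le_mul_of_nonneg_left hk2 (show (0 : ℝ) ≤ 2 ^ (C₂ * (C₁ * (h + 1) + 1)) by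
          positivity)
        have e4 := mul_le_mul_of_nonneg_right e1 e2
        have e5 : M =
            2 ^ (C₂ * (C₁ * (h + 1) + 1)) * (1 / 2 ^ min (g' n) (g n)) +
            2 ^ (C₂ * (C₁ * (h + 1) + 1)) * (1 / 2 ^ min (g' n) (g n)) := by
          rw [hM, pow_succ]
          ring
        rw [e5]
        linarith
      have hPB : κ * Pool.K2S.Pe F.p B₀ ≤ Pool.K2S.Pe F.p B₂ := by
        have h5 : κ' * Pool.K2S.Pe F.p B₀ ≤ 2 ^ r * (2 ^ n * Pool.K2S.Pe F.p B₂) :=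
          hP.trans (k2.trans (mul_le_mul_of_nonneg_left l2 h2r.le))
        have h6 : (2 : ℝ) ^ n ≤ 2 ^ r * 2 := by
          rw [← pow_succ]
          exact pow_le_pow_right₀ (by norm_num) (by omega)
        have h7 : κ * (4 * 4 ^ r) * Pool.K2S.Pe F.p B₀ ≤ 2 ^ r * ((2 ^ r * 2) * Pool.K2S.Pe F.p B₂) :=
          (mul_le_mul_of_nonneg_right hκ (hp B₀)).trans (h5.trans
            (mul_le_mul_of_nonneg_left (mul_le_mul_of_nonneg_right h6 (hp B₂)) h2r.le))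
        have h8 : (0 : ℝ) < 4 ^ r := by positivity
        have e1 : κ * (4 * 4 ^ r) * Pool.K2S.Pe F.p B₀ = 4 ^ r * (4 * (κ * Pool.K2S.Pe F.p B₀)) := by ring
        have e2 : (2 : ℝ) ^ r * ((2 ^ r * 2) * Pool.K2S.Pe F.p B₂) = 4 ^ r * (2 * Pool.K2S.Pe F.p B₂) := by
          rw [e4]
          ring
        rw [e1, e2] at h7
        have h9 := le_of_mul_le_mul_left h7 h8
        have h10 : 0 ≤ κ * Pool.K2S.Pe F.p B₀ := mul_nonneg hκ0 (hp B₀)
        linarith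
      obtain ⟨B₃, q1, q2, q3⟩ := hR B₂ (fun ω hω => hB ω (k1 ω (l1 ω hω))) hPB
        (fun y => G₁ y n - G₂ y n) (fun s => H₁ (Pool.D2R.co (a - w) s) n - H₂ s n) M
        (fun y => (totalDegree_sub _ _).trans (max_le (h₁.degG y n) (h₂.degG y n)))
        (fun s => (totalDegree_sub _ _).trans (max_le (h₁.degH _ n) (h₂.degH s n)))
        (fun y b b' e1 e2 => by
          rw [map_sub, map_sub, h₁.depG y n b b' e1 fun l hl => e2 l (by omega),
            h₂.depG y n b b' e1 fun l hl => e2 l (by omega)])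
        (fun s b b' e1 e2 => by
          rw [map_sub, map_sub, h₁.depH _ n b b' e1 fun l hl => e2 l (by omega),
            h₂.depH s n b b' e1 fun l hl => e2 l (by omega)]) hM0
        (fun ω hω => by
          have hω' : B ω := k1 ω (l1 ω hω)
          have e1 := h₁.pos ω hω' n (by omega)
          have e2 := h₂.pos ω hω' n (by omega)
          rw [map_sub]
          have e3 : eval (Pool.GEN.bt F ω) (G₁ (Pool.PB.ptr F J ω) n) - eval (Pool.GEN.bt F ω) (G₂ (Pool.PB.ptr F J ω) n) =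
              (F.x ω (c n) - eval (Pool.GEN.bt F ω) (G₂ (Pool.PB.ptr F J ω) n)) -
              (F.x ω (c n) - eval (Pool.GEN.bt F ω) (G₁ (Pool.PB.ptr F J ω) n)) := by ring
          rw [e3]
          refine (abs_sub _ _).trans (le_trans ?_ hsum)
          rw [add_comm]
          refine add_le_add (e1.trans (le_mul_of_one_le_left (by positivity)
            (one_le_pow₀ (by norm_num)))) (e2.trans hk1))
        (fun ω hω b hb => by
          have hω₁ : B₁ ω := l1 ω hω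
          have hω' : B ω := k1 ω hω₁
          have e1 := hls (p := C₁ * (h + 1)) (M := 1 / 2 ^ g' n) (Q := G₁ (Pool.PB.ptr F J ω) n -
            H₁ (Pool.D2R.co (a - w) (Pool.KSAT.slam F a ω)) n) (G := G₁ (Pool.PB.ptr F J ω)) (G' := G₂ (Pool.PB.ptr F J ω))
            (g := g') (g' := g) (a := a) (t := F.t ω) (i := n)
            (by omega) (hc.mono fun y hy => by rw [Set.mem_Iio] at hy ⊢; omega)
            (h₁.degG _) (h₁.depG _) (fun y y' e1 e2 => by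
              rw [map_sub, map_sub, h₁.depG _ n y y' e1 e2, h₁.depH _ n y y' e1 e2])
            ((totalDegree_sub _ _).trans (max_le (h₁.degG _ n) (h₁.degH _ n))) (by positivity)
            (fun b hb j hj => k3 ω hω₁ n (by omega) b hb j hj)
            (fun b hb => by
              rw [map_sub]
              exact h₁'.agr ω hω' n (by omega) b hb) b (hb.mono le_rfl (by omega))
          have e2 := h₂.agr ω hω' n (by omega) b (hb.mono le_rfl (by omega))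
          rw [map_sub] at e1
          rw [map_sub, map_sub]
          have e3 : eval b (G₁ (Pool.PB.ptr F J ω) n) - eval b (G₂ (Pool.PB.ptr F J ω) n) -
              (eval b (H₁ (Pool.D2R.co (a - w) (Pool.KSAT.slam F a ω)) n) - eval b (H₂ (Pool.KSAT.slam F a ω) n)) =
              (eval b (G₁ (Pool.PB.ptr F J ω) n) - eval b (H₁ (Pool.D2R.co (a - w) (Pool.KSAT.slam F a ω)) n)) -
              (eval b (G₂ (Pool.PB.ptr F J ω) n) - eval b (H₂ (Pool.KSAT.slam F a ω) n)) := by ring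
          rw [e3]
          exact (abs_sub _ _).trans ((add_le_add e1 (e2.trans hk1)).trans hsum))
      refine ⟨B₃, fun ω hω => l1 ω (q1 ω hω), ?_, fun ω hω l hl b hb => ?_⟩
      · rw [pow_succ]
        calc Pool.K2S.Pe F.p B₁ ≤ 2 ^ n * Pool.K2S.Pe F.p B₂ := l2
          _ ≤ 2 ^ n * (2 * Pool.K2S.Pe F.p B₃) := mul_le_mul_of_nonneg_left (by linarith) (by positivity)
          _ = _ := by ring
      · rcases Nat.lt_or_ge l n with h5 | h5
        · exact l3 ω (q1 ω hω) l h5 b hb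
        · have h6 : l = n := by omega
          subst h6
          obtain ⟨b', m1, m2, m3⟩ := Pool.D2R.nbx_up hc (h₂.depG (Pool.PB.ptr F J ω)) (by omega) hb
          have h7 := q3 ω hω b' m1
          rw [map_sub, h₁.depG (Pool.PB.ptr F J ω) l b' b m2 m3, h₂.depG (Pool.PB.ptr F J ω) l b' b m2 m3] at h7
          refine h7.trans ?_
          rw [hM, ← mul_div_assoc, ← pow_add]
          refine div_le_div_of_nonneg_right (pow_le_pow_right₀ (by norm_num) ?_) (by positivity)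
          nlinarith [Nat.zero_le (C₂ * h)]
  obtain ⟨B', l1, l2, l3⟩ := key (r + 1) le_rfl
  refine ⟨B', fun ω hω => k1 ω (l1 ω hω), ?_, fun ω hω l hl => l3 ω hω l (by omega)⟩
  calc Pool.K2S.Pe F.p B ≤ 2 ^ r * Pool.K2S.Pe F.p B₁ := k2
    _ ≤ 2 ^ r * (2 ^ (r + 1) * Pool.K2S.Pe F.p B') := mul_le_mul_of_nonneg_left l2 h2r.le
    _ = _ := by rw [e4, pow_succ]; ring


end Pool.W.D2R
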