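import Pool.Agent.H23.D2.Env
import Pool.Agent.H31.W.H23.D2.Bal
import Pool.Agent.H31.W1.H2.GEN.EvS
import Pool.Agent.H31.W1.H80.GEN.Chn

/-!
# The environment of a closed gradient

`BalE`, `bals_out`: finitely many windows on one event: the thin boxes against the re-centred
balls, and the balls against each other. `EnvD`: all the data of `LinD` which do not depend on the
closed gradient; `env_out`: it follows from the balls of a chain of windows.
-/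

set_option autoImplicit false

namespace Pool.W.D2R

open Pool.D2R

open Finset Real MvPolynomial
open Pool.Agent.H49.Ent Pool.Agent.H32.Dense Pool.STK Pool.KA Pool.KSAT Pool.K2S Pool.PB Pool.S6C
open Pool.GEN Pool.CHT Pool.CHX Pool.ISO

variable {m J : ℕ}


/-- The balls of finitely many windows, on one event. -/
theorem bals_out (D r : ℕ) (hD : 1 ≤ D) : ∃ C : ℕ, 1 ≤ C ∧ ∀ n M : ℕ, ∃ K : ℝ, 1 ≤ K ∧
    ∀ {m J : ℕ} {F : Pool.KA.Fam m J} {c : ℕ → Fin m} {Dr a h : ℕ} {o e hh p : ℕ → ℕ}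
    {z : ℕ → ℕ → ℕ} {R : ℕ → Prop} {g gc gT g₀ : ℕ → ℕ → ℕ} {κ : ℕ → ℝ} {B : F.Ω → Prop}
    {G T : ℕ → Pool.GEN.PtT F → ℕ → MvPolynomial (Option (Fin m)) ℝ}
    {H TH : ℕ → Pool.GEN.LnT F → ℕ → MvPolynomial (Option (Fin m)) ℝ}
    {Gt : ℕ → Pool.GEN.PtT F → MvPolynomial (Option (Fin m)) ℝ}
    {Ht : ℕ → Pool.GEN.LnT F → MvPolynomial (Option (Fin m)) ℝ},
    Set.InjOn c (Set.Iio r) → D ≤ Dr → (∀ k ≤ n, o k ≤ a) → (∀ k ≤ n, o k ≤ J) →
    (∀ k ≤ n, hh k ≤ h) → (∀ k ≤ n, 0 ≤ κ k ∧ κ k * K ≤ 1) →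
    (∀ k ≤ n, Pool.W.ISO.EvS F c r D Dr (o k) (a - o k) M (z k) (e k) (hh k) (p k) R (g k) (gc k) (gT k)
      (g₀ k) (κ k) B (G k) (H k) (T k) (TH k) (Gt k) (Ht k)) →
    ∃ B' : F.Ω → Prop, Pool.K2S.Sub B' B ∧ Pool.K2S.Pe F.p B ≤ K * Pool.K2S.Pe F.p B' ∧
      Pool.D2R.BalE F c r n M a o z g gc gT g₀ (2 ^ (C * (h + 1))) B' G T := by
  classical
  obtain ⟨C₁, hinc⟩ := Pool.W.D2R.inc_out D r hD
  obtain ⟨C₂, hbal⟩ := Pool.W.D2R.bal_out D r hD
  obtain ⟨Y, hY⟩ : ∃ Y : ℝ, Y = 4 * 4 ^ r := ⟨_, rfl⟩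
  have h41 : (1 : ℝ) ≤ 4 ^ r := one_le_pow₀ (by norm_num)
  have hY1 : 1 ≤ Y := by rw [hY]; linarith
  have hY0 : 0 < Y := by linarith
  have h2r : (0 : ℝ) < 2 ^ r := by positivity
  have h24 : (2 : ℝ) ^ r ≤ 4 ^ r := pow_le_pow_left₀ (by norm_num) (by norm_num) r
  refine ⟨C₁ + C₂ + 1, by omega, fun n M => ?_⟩
  -- the list of all pairs and indices, with the incidences
  obtain ⟨L, hL⟩ : ∃ L : List (ℕ ⊕ (ℕ × ℕ × ℕ)), L =
      ((List.range (n + 1)).map Sum.inl) ++ (((List.range (n + 1)).product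
        ((List.range (n + 1)).product (List.range (M + 1)))).map Sum.inr) := ⟨_, rfl⟩
  obtain ⟨K, hK⟩ : ∃ K : ℝ, K = Y ^ (L.length + 1) := ⟨_, rfl⟩
  refine ⟨K, by rw [hK]; exact one_le_pow₀ hY1, ?_⟩
  intro m J F c Dr a h o e hh p z R g gc gT g₀ κ B G T H TH Gt Ht hc hDr hoa hoJ hh' hκ hE
  have hp := Pool.K2S.Pe_nonneg F.isLaw
  obtain ⟨U, hU⟩ : ∃ U : ℝ, U = 2 ^ ((C₁ + C₂ + 1) * (h + 1)) := ⟨_, rfl⟩
  have hUU : ∀ {C' h' : ℕ}, C' ≤ C₁ + C₂ + 1 → h' ≤ h → (2 : ℝ) ^ (C' * (h' + 1)) ≤ U :=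
    fun h1 h2 => by
      rw [hU]
      exact pow_le_pow_right₀ (by norm_num) (Nat.mul_le_mul h1 (by omega))
  obtain ⟨P, hP⟩ : ∃ P : (ℕ ⊕ (ℕ × ℕ × ℕ)) → (F.Ω → Prop) → Prop, P = fun x B => match x with
      | Sum.inl k => k ≤ n → ∀ ω, B ω → ∀ i ≤ r, ∀ b,
          Pool.GEN.NBx c (T k (Pool.PB.ptr F J ω)) (gT k) a (F.t ω) i b → ∀ j < i, |b (some (c j)) -
            eval b (Pool.GEN.Gno (c j) J J (fun y => G k y j) (Pool.PB.ptr F J ω))| ≤ U / 2 ^ gc k j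
      | Sum.inr (k, k', q) => k ≤ n → k' ≤ n → q ≤ M → o k ≤ o k' → z k q = o k' - o k →
          ∀ ω, B ω → ∀ l ≤ r, ∀ b, Pool.GEN.NBx c (G k' (Pool.PB.ptr F J ω)) (g₀ k') (o k') (F.t ω) l b →
          |eval b (Pool.GEN.Gno (c l) J J (fun y => G k y l) (Pool.PB.ptr F J ω)) -
            eval b (G k' (Pool.PB.ptr F J ω) l)| ≤ U / 2 ^ min (g k l + (o k' - o k)) (g₀ k' l) :=
    ⟨_, rfl⟩
  have hmono : ∀ x B B', P x B → Pool.K2S.Sub B' B → P x B' := by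
    intro x B B' hx hB
    rw [hP] at hx ⊢
    rcases x with k | ⟨k, k', q⟩
    · exact fun h1 ω hω => hx h1 ω (hB ω hω)
    · exact fun h1 h2 h3 h4 h5 ω hω => hx h1 h2 h3 h4 h5 ω (hB ω hω)
  obtain ⟨B', hB1, hB2, hB3⟩ := Pool.D2R.ev_list P hY1 hmono L B (by
    intro x _ B' hB' hPB
    have hsh : ∀ k ≤ n, κ k * Y ≤ 1 / Y ^ L.length := by
      intro k hk
      rw [le_div_iff₀ (pow_pos hY0 _), mul_assoc, ← pow_succ']
      have h1 := (hκ k hk).2
      rw [hK] at h1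
      exact h1
    have hsh2 : 1 / Y ^ L.length * Pool.K2S.Pe F.p B ≤ Pool.K2S.Pe F.p B' := by
      rw [one_div, inv_mul_le_iff₀ (pow_pos hY0 _)]
      exact hPB
    rw [hP]
    rcases x with k | ⟨k, k', q⟩
    · by_cases hk : k ≤ n
      swap
      · exact ⟨B', fun _ h => h, le_mul_of_one_le_left (hp B') hY1, fun h => absurd h hk⟩
      have hEk := hE k hk
      have hak : o k + (a - o k) = a := by
        have := hoa k hk
        omega
      have htop := hEk.top.sub hB'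
      have hrel := hEk.relt
      rw [hak] at htop hrel
      obtain ⟨B'', h1, h2, h3⟩ := hinc (κ' := 1 / Y ^ L.length) hc hEk.thin.depG
        (hrel.mono hDr le_rfl) hB' hsh2 (by
          refine le_trans (mul_le_mul_of_nonneg_left ?_ (hκ k hk).1) (hsh k hk)
          rw [hY, pow_succ]
          linarith) (htop.mono (Nat.le_succ r) (fun _ => le_rfl) le_rfl le_rfl)
      refine ⟨B'', h1, h2.trans (mul_le_mul_of_nonneg_right ?_ (hp B'')), fun _ ω hω i hi b hb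
        j hj => (h3 ω hω i hi b hb j hj).trans ?_⟩
      · rw [hY]
        linarith
      · exact div_le_div_of_nonneg_right (hUU (by omega) (hh' k hk)) (by positivity)
    · by_cases hk : k ≤ n ∧ k' ≤ n ∧ q ≤ M ∧ o k ≤ o k' ∧ z k q = o k' - o k
      swap
      · exact ⟨B', fun _ h => h, le_mul_of_one_le_left (hp B') hY1, fun h1 h2 h3 h4 h5 =>
          absurd ⟨h1, h2, h3, h4, h5⟩ hk⟩
      obtain ⟨hk, hk', hq, hoo, hz⟩ := hk
      have hrad := (hE k hk).rad q hq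
      rw [hz, show o k + (o k' - o k) = o k' by omega] at hrad
      have hE' := hE k' hk'
      obtain ⟨B'', h1, h2, h3⟩ := hbal (κ' := 1 / Y ^ L.length) hc hoo (hoJ k' hk')
        (hE'.relb.mono hDr le_rfl) hB' hsh2 (hκ k' hk').1 (by
          refine le_trans (le_of_eq ?_) (hsh k' hk')
          rw [hY]) (hrad.sub hB') (hE'.ball.sub hB')
      refine ⟨B'', h1, h2.trans (mul_le_mul_of_nonneg_right ?_ (hp B'')), fun _ _ _ _ _ ω hω
        l hl b hb => (h3 ω hω l hl b hb).trans ?_⟩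
      · rw [hY]
        linarith
      · exact div_le_div_of_nonneg_right (hUU (by omega) (hh' k' hk')) (by positivity))
  refine ⟨B', hB1, hB2.trans (mul_le_mul_of_nonneg_right ?_ (hp B')), ?_⟩
  · rw [hK]
    exact pow_le_pow_right₀ hY1 (Nat.le_succ _)
  · rw [← hU]
    refine ⟨fun k hk => ?_, fun k hk k' hk' q hq => ?_⟩
    · have h1 := hB3 (Sum.inl k) (by
        rw [hL, List.mem_append]
        left
        rw [List.mem_map]
        exact ⟨k, List.mem_range.2 (by omega), rfl⟩)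
      rw [hP] at h1
      exact h1 hk
    · have h1 := hB3 (Sum.inr (k, k', q)) (by
        rw [hL, List.mem_append]
        right
        rw [List.mem_map]
        refine ⟨(k, k', q), ?_, rfl⟩
        rw [List.pair_mem_product, List.pair_mem_product, List.mem_range, List.mem_range,
          List.mem_range]
        omega)
      rw [hP] at h1
      exact h1 hk hk' hq

/-! ### The environment -/


/-- The derivatives of two balls. -/
theorem bale_dd (D r : ℕ) : ∃ C : ℕ, ∀ {m J : ℕ} {F : Pool.KA.Fam m J} {c : ℕ → Fin m}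
    {n M a k k' q e' : ℕ} {o : ℕ → ℕ} {z : ℕ → ℕ → ℕ} {g gc gT g₀ : ℕ → ℕ → ℕ} {U : ℝ}
    {B : F.Ω → Prop} {G T : ℕ → Pool.GEN.PtT F → ℕ → MvPolynomial (Option (Fin m)) ℝ}
    {H : ℕ → Pool.GEN.LnT F → ℕ → MvPolynomial (Option (Fin m)) ℝ}, Set.InjOn c (Set.Iio r) →
    Pool.D2R.BalE F c r n M a o z g gc gT g₀ U B G T → 0 ≤ U → k ≤ n → k' ≤ n → q ≤ M → o k ≤ o k' →
    z k q = o k' - o k → (∀ y l, (G k y l).totalDegree ≤ D) → (∀ y l, Pool.GEN.DepC c l (G k y l)) →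
    Pool.W.GEN.ChOK F c (r + 1) (fun _ => D) (o k') (o k') e' (g₀ k') B (G k') (H k') →
    ∀ ω, B ω → ∀ l ≤ r, ∀ V : Option (Fin m) → ℝ,
      |Pool.D2R.dd (G k (Pool.PB.ptr F J ω) l) (Pool.GEN.bt F ω) V - Pool.D2R.dd (G k' (Pool.PB.ptr F J ω) l) (Pool.GEN.bt F ω) V| ≤
        2 ^ C * U / 2 ^ min (g k l + (o k' - o k)) (g₀ k' l) *
          Pool.D2R.nrm c (G k' (Pool.PB.ptr F J ω)) (g₀ k') (o k') l (Pool.GEN.bt F ω) V := by
  have hba := fun l : ℕ => Pool.D2R.box_all l D D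
  choose Cb hCb hbl using hba
  obtain ⟨C, hC⟩ := pow_unbounded_of_one_lt (1 + ∑ l ∈ range (r + 1), Cb l) (one_lt_two (α := ℝ))
  have hCbl : ∀ l ≤ r, Cb l ≤ 2 ^ C := by
    intro l hl
    have := Finset.single_le_sum (f := Cb) (fun l _ => by linarith [hCb l])
      (Finset.mem_range.2 (Nat.lt_succ_of_le hl))
    linarith
  refine ⟨C, ?_⟩
  intro m J F c n M a k k' q e' o z g gc gT g₀ U B G T H hc hB hU hk hk' hq hoo hz hdG hpG hch
    ω hω l hl V
  have h1 := (hbl l (c := c) (ψ := G k' (Pool.PB.ptr F J ω))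
    (Q := Pool.GEN.Gno (c l) J J (fun y => G k y l) (Pool.PB.ptr F J ω) - G k' (Pool.PB.ptr F J ω) l)
    (g := g₀ k') (a := o k') (M := U / 2 ^ min (g k l + (o k' - o k)) (g₀ k' l))
    (x := Pool.GEN.bt F ω) (hc.mono fun y hy => by
      rw [Set.mem_Iio] at hy ⊢
      omega) (hch.degG _) (hch.depG _) (fun y y' h1 h2 => by
      rw [map_sub, map_sub, Pool.D2R.depC_Gno (c l) (fun y => G k y l) (Pool.PB.ptr F J ω) (hpG _ l) y y' h1 h2,
        hch.depG _ l y y' h1 h2])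
    ((totalDegree_sub _ _).trans (max_le (Pool.D2R.deg_Gno (c l) (fun y => G k y l) (Pool.PB.ptr F J ω)
      (hdG _ l)) (hch.degG _ l))) (by positivity)
    (fun b hb => by
      rw [map_sub]
      exact hB.bal k hk k' hk' q hq hoo hz ω hω l hl b hb)
    (fun j hj => hch.pos ω hω j (by omega))).1 V
  rw [Pool.D2R.dd_sub, Pool.D2R.dd_Gno] at h1
  refine h1.trans (mul_le_mul_of_nonneg_right ?_ (Pool.D2R.nrm_nonneg _ _ _ _ _ _ _))
  rw [mul_div_assoc]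
  exact mul_le_mul_of_nonneg_right (hCbl l hl) (by positivity)


end Pool.W.D2R
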