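import Pool.Agent.H23.D2.Bcl
import Pool.Agent.H31.W.H23.D2.Cls
import Pool.Agent.H31.W.H23.D2.Env
import Pool.Agent.H3.W.Bas
import Pool.Agent.H31.W1.H2.GEN.ChT
import Pool.Agent.H31.W1.H2.GEN.EvS
import Pool.Agent.H31.W1.H62.GEN.JatB

/-!
# One event for the rows and for the balls

`bal_con`: `row_con` together with the inclusions of the thin boxes and the comparison of all pairs
of balls, on one event.
-/

set_option autoImplicit false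

namespace Pool.W.D2R

open Pool.D2R

open Finset Real MvPolynomial
open Pool.Agent.H49.Ent Pool.Agent.H32.Dense Pool.STK Pool.KA Pool.KSAT Pool.K2S Pool.PB Pool.S6C
open Pool.GEN Pool.CHT Pool.CHX Pool.ISO
open Pool.LBT (LSys Slo Tri ThrOf fl_le' bas_false)
open Pool.LEV (Law)
open Pool.FLF (Fam.sub)
open Pool.JTN (TgP)

variable {m : ℕ}

/-- **Finitely many windows on one event, with the rows of all pairs and with the balls.** -/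
theorem bal_con (m r S₀ : ℕ) (hr : 1 ≤ r) (hS₀ : 1 ≤ S₀) : ∃ D : ℕ, 1 ≤ D ∧ ∀ Dr : ℕ, D ≤ Dr →
    ∃ C : ℝ, 1 ≤ C ∧ ∀ {S : Pool.PB.PCl m} {P : List (Fin m) × Fin m → ℝ → ℝ → ℝ} {θ : ℝ}
    {c : ℕ → Fin m} {Pt : ℝ → ℝ → ℝ} {R : ℕ → Prop} {a Eb ηm : ℝ} {o ε p' η σ r₀ : ℕ → ℝ}
    (N M : ℕ), Pool.LBT.ThrOf (Pool.W.CHT.chsys m θ) S P → 0 < θ → Pool.CHT.TmH S → Set.InjOn c (Set.Iio (r + 1)) → Pool.LEV.Law Pt →
    (∀ k ≤ N, Pool.W.ISO.WinD S P θ c r Pt a (o k) S₀ Eb (ε k) R) →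
    (∀ k ≤ N, C * ε k < o k ∧ C * ε k < η k) →
    (∀ k ≤ N, 0 ≤ p' k ∧ p' k + C * ε k < Pt a (o k)) →
    (∀ k ≤ N, 0 < σ k ∧ 0 < r₀ k ∧ η k < a) → (∀ k ≤ N, η k ≤ ηm) →
    (∀ k ≤ N, ∀ l ≤ r, Pool.ISO.lvN P c r Pt l (o k) (o k) + (a - o k) + (Eb + σ k + η k) < 1) →
    (∀ k ≤ N, ∀ l < r, Pool.CHT.bet P c l a (o k) + (Eb + σ k + η k) < 1) →
    ∃ (K₁ : ℝ) (μ : ℕ → ℝ) (b : ℕ → ℕ → ℝ), 0 < K₁ ∧ (∀ k ≤ N, 0 < μ k ∧ ∀ l ≤ r,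
        Pool.ISO.lvN P c r Pt l (o k) (o k) - σ k < b k l ∧
        b k l < Pool.ISO.lvN P c r Pt l (o k) (o k) - μ k) ∧
      ∀ κ : ℝ, 0 < κ → Pool.S6C.Bas S (fun J F A => ∀ z : ℕ → ℕ → ℕ,
        (∀ k ≤ N, ∀ i ≤ M, r₀ k * J ≤ z k i ∧ z k i ≤ ⌊a * J⌋₊ - ⌊o k * J⌋₊) →
        ∃ (B : F.Ω → Prop) (gc gT g₀ : ℕ → ℕ → ℕ)
          (G : ℕ → Pool.GEN.PtT F → ℕ → MvPolynomial (Option (Fin m)) ℝ)
          (H : ℕ → Pool.GEN.LnT F → ℕ → MvPolynomial (Option (Fin m)) ℝ)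
          (T : ℕ → Pool.GEN.PtT F → ℕ → MvPolynomial (Option (Fin m)) ℝ)
          (TH : ℕ → Pool.GEN.LnT F → ℕ → MvPolynomial (Option (Fin m)) ℝ)
          (Gt : ℕ → Pool.GEN.PtT F → MvPolynomial (Option (Fin m)) ℝ)
          (Ht : ℕ → Pool.GEN.LnT F → MvPolynomial (Option (Fin m)) ℝ), Pool.K2S.Sub B A ∧
          Pool.K2S.Pe F.p A ≤ K₁ * Pool.K2S.Pe F.p B ∧
          (∀ k ≤ N, Pool.ISO.Sds r J (⌊a * J⌋₊ - ⌊o k * J⌋₊) R (fun l => Pool.ISO.lvN P c r Pt l (o k) (o k))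
              (fun l => Pool.CHT.bet P c l a (o k)) (σ k) (ε k) (η k) (gc k) (gT k) (g₀ k) ∧
            Pool.W.ISO.EvS F c r D Dr ⌊o k * J⌋₊ (⌊a * J⌋₊ - ⌊o k * J⌋₊) M (z k)
              ⌊(Eb + σ k + η k) * J⌋₊ ⌊η k * J⌋₊ ⌊p' k * J⌋₊ R (fun l => ⌊b k l * J⌋₊) (gc k)
              (gT k) (g₀ k) κ B (G k) (H k) (T k) (TH k) (Gt k) (Ht k)) ∧
          (∀ i ≤ N, ∀ j ≤ N, o i ≤ o j → ∀ q : ℕ, (q : ℝ) + C * (η j * J) ≤ p' i * J →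
            (q : ℝ) + C * (η j * J) ≤ gc j r →
            Pool.D2R.ROut1 F c r ⌊o i * J⌋₊ ⌊o j * J⌋₊ (⌊a * J⌋₊ - ⌊o j * J⌋₊) (g₀ j) (gT j) q
              (2 ^ ⌊C * (η j * J)⌋₊) B (G j) (H j) (T j) (TH j) (Ht i)) ∧
          Pool.D2R.BalE F c r N M ⌊a * J⌋₊ (fun k => ⌊o k * J⌋₊) z (fun k l => ⌊b k l * J⌋₊) gc gT g₀
            (2 ^ ⌊C * (ηm * J)⌋₊) B G T) := by
  classical
  obtain ⟨D, hD, hrow⟩ := Pool.W.D2R.row_con m r S₀ hr hS₀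
  refine ⟨D, hD, fun Dr hDr => ?_⟩
  obtain ⟨C₁, hC₁, hrow⟩ := hrow Dr hDr
  obtain ⟨C₂, hC₂, hbal⟩ := Pool.W.D2R.bals_out D r hD
  have hC₂R : (1 : ℝ) ≤ C₂ := by exact_mod_cast hC₂
  refine ⟨C₁ + 2 * C₂, by linarith, ?_⟩
  intro S P θ c Pt R a Eb ηm o ε p' η σ r₀ N M hP hθ hS hinj hPt hW hε hp' hσ hηm htop hbet
  obtain ⟨K, hK, hbal⟩ := hbal N M
  have hK0 : 0 < K := by linarith
  have hCC : ∀ k ≤ N, C₁ * ε k ≤ (C₁ + 2 * C₂) * ε k := fun k hk =>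
    mul_le_mul_of_nonneg_right (by linarith) (hW k hk).ε0
  have hη0 : ∀ k ≤ N, 0 < η k := fun k hk => by
    have h1 : 0 ≤ (C₁ + 2 * C₂) * ε k := mul_nonneg (by linarith) (hW k hk).ε0
    linarith [(hε k hk).2]
  have hηm0 : 0 < ηm := (hη0 0 (Nat.zero_le N)).trans_le (hηm 0 (Nat.zero_le N))
  obtain ⟨K₁, μ, b, hK₁, hμb, hbas⟩ := hrow N M hP hθ hS hinj hPt hW
    (fun k hk => ⟨(hCC k hk).trans_lt (hε k hk).1, (hCC k hk).trans_lt (hε k hk).2⟩)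
    (fun k hk => ⟨(hp' k hk).1, by linarith [(hp' k hk).2, hCC k hk]⟩) hσ htop hbet
  refine ⟨K₁ * K, μ, b, mul_pos hK₁ hK0, hμb, fun κ hκ => ?_⟩
  obtain ⟨κ', hκ'⟩ : ∃ κ' : ℝ, κ' = min κ 1 / K := ⟨_, rfl⟩
  have hκ'0 : 0 < κ' := by rw [hκ']; exact div_pos (lt_min hκ one_pos) hK0
  have hκ'1 : κ' * K ≤ 1 := by
    rw [hκ', div_mul_cancel₀ _ hK0.ne']
    exact min_le_right _ _
  have hκ'2 : κ' * K ≤ κ := by
    rw [hκ', div_mul_cancel₀ _ hK0.ne']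
    exact min_le_left _ _
  obtain ⟨J₁, hJ₁⟩ := exists_nat_gt (1 / ηm)
  have ho : ∀ k ≤ N, 0 < o k ∧ o k < 1 ∧ o k < a := fun k hk => by
    obtain ⟨ρ, vs, e, e₀, E, sg, Q, d1, -⟩ := (hW k hk).dw
    exact ⟨d1.w0, d1.a1, (hW k hk).lt⟩
  refine Pool.S6C.Bas.mono J₁ (hbas κ' hκ'0) ?_
  intro J hJ F A h1 z hz
  have hJ0 : (0 : ℝ) ≤ J := Nat.cast_nonneg J
  have hηJ : 1 ≤ ηm * J := by
    have h2 : 1 / ηm < J := hJ₁.trans_le (by exact_mod_cast hJ)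
    rw [div_lt_iff₀ hηm0] at h2
    linarith
  obtain ⟨B, gc, gT, g₀, G, H, T, TH, Gt, Ht, k1, k2, k3, k4⟩ := h1 z hz
  have hp := Pool.K2S.Pe_nonneg F.isLaw
  have hfo : ∀ k ≤ N, ⌊o k * J⌋₊ ≤ ⌊a * J⌋₊ := fun k hk =>
    Nat.floor_le_floor (mul_le_mul_of_nonneg_right (ho k hk).2.2.le hJ0)
  obtain ⟨B', l1, l2, l3⟩ := hbal (c := c) (Dr := Dr) (a := ⌊a * J⌋₊) (h := ⌊ηm * J⌋₊)
    (o := fun k => ⌊o k * J⌋₊) (e := fun k => ⌊(Eb + σ k + η k) * J⌋₊)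
    (hh := fun k => ⌊η k * J⌋₊) (p := fun k => ⌊p' k * J⌋₊) (z := z) (R := R)
    (g := fun k l => ⌊b k l * J⌋₊) (gc := gc) (gT := gT) (g₀ := g₀) (κ := fun _ => κ') (B := B)
    (G := G) (T := T) (H := H) (TH := TH) (Gt := Gt) (Ht := Ht)
    (hinj.mono fun y hy => by rw [Set.mem_Iio] at hy ⊢; omega) hDr hfo (fun k hk => by
      have h5 : (⌊o k * J⌋₊ : ℝ) ≤ o k * J := Nat.floor_le (mul_nonneg (ho k hk).1.le hJ0)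
      have h6 : o k * (J : ℝ) ≤ 1 * J := mul_le_mul_of_nonneg_right (ho k hk).2.1.le hJ0
      have h7 : (⌊o k * J⌋₊ : ℝ) ≤ J := by linarith
      exact_mod_cast h7)
    (fun k hk => Nat.floor_le_floor (mul_le_mul_of_nonneg_right (hηm k hk) hJ0))
    (fun k _ => ⟨hκ'0.le, hκ'1⟩) (fun k hk => (k3 k hk).2)
  have hfl : ∀ {x y : ℝ}, x ≤ y → (2 : ℝ) ^ ⌊x⌋₊ ≤ 2 ^ ⌊y⌋₊ := fun h =>
    pow_le_pow_right₀ (by norm_num) (Nat.floor_le_floor h)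
  refine ⟨B', gc, gT, g₀, G, H, T, TH, Gt, Ht, fun ω hω => k1 ω (l1 ω hω), ?_,
    fun k hk => ⟨(k3 k hk).1, (k3 k hk).2.sub (κ₁ := 1 / K) l1 ?_ hκ.le ?_⟩,
    fun i hi j hj hij q q1 q2 => ?_, ?_⟩
  · calc Pool.K2S.Pe F.p A ≤ K₁ * Pool.K2S.Pe F.p B := k2
      _ ≤ K₁ * (K * Pool.K2S.Pe F.p B') := mul_le_mul_of_nonneg_left l2 hK₁.le
      _ = _ := by ring
  · rw [one_div, inv_mul_le_iff₀ hK0]
    exact l2
  · rw [mul_one_div, le_div_iff₀ hK0]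
    exact hκ'2
  · have h6 : 0 ≤ η j * J := mul_nonneg (hη0 j hj).le hJ0
    have h7 : C₁ * (η j * J) ≤ (C₁ + 2 * C₂) * (η j * J) :=
      mul_le_mul_of_nonneg_right (by linarith) h6
    exact ((k4 i hi j hj hij q (by linarith) (by linarith)).mono le_rfl (by positivity)
      (hfl h7)).sub l1
  · have hU : (2 : ℝ) ^ (C₂ * (⌊ηm * J⌋₊ + 1)) ≤ 2 ^ ⌊(C₁ + 2 * C₂) * (ηm * J)⌋₊ := by
      refine pow_le_pow_right₀ (by norm_num) (Nat.le_floor ?_)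
      push_cast
      have h5 : (⌊ηm * J⌋₊ : ℝ) ≤ ηm * J := Nat.floor_le (mul_nonneg hηm0.le hJ0)
      have h6 : (C₂ : ℝ) * (⌊ηm * J⌋₊ + 1) ≤ C₂ * (2 * (ηm * J)) :=
        mul_le_mul_of_nonneg_left (by linarith) (by linarith)
      have h7 : 0 ≤ C₁ * (ηm * J) := mul_nonneg (by linarith) (by linarith)
      linarith
    exact ⟨fun k hk ω hω i hi b hb j hj => (l3.inc k hk ω hω i hi b hb j hj).trans
        (div_le_div_of_nonneg_right hU (by positivity)),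
      fun k hk k' hk' q hq hoo hz' ω hω l hl b hb =>
        (l3.bal k hk k' hk' q hq hoo hz' ω hω l hl b hb).trans
        (div_le_div_of_nonneg_right hU (by positivity))⟩

end Pool.W.D2R
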