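import Pool.Agent.H23.D2.Num
import Pool.Agent.H31.W1.H2.GEN.EvS

/-!
# The numbers of the environment

`Wins`: finitely many windows on one event (the output of `bal_con`), `win_con`: it exists in a
class. `Wins.env`: the environment of a target from a chain of windows, the numbers in real form.
-/

set_option autoImplicit false

namespace Pool.W.D2R

open Pool.D2R

open Finset Real MvPolynomial
open Pool.Agent.H49.Ent Pool.Agent.H32.Dense Pool.STK Pool.KA Pool.KSAT Pool.K2S Pool.PB Pool.S6C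
open Pool.GEN Pool.CHT Pool.CHX Pool.ISO
open Pool.LBT (ThrOf)
open Pool.LEV (Law)
open Pool.FLF (Fam.sub)

variable {m J : ℕ}

/-- **Finitely many windows on one event.** `lv`, `be`: the levels of the balls and of the thin
labels. -/
structure Wins (F : Pool.KA.Fam m J) (c : ℕ → Fin m) (r D Dr N M : ℕ) (R : ℕ → Prop)
    (C₀ a Eb ηm : ℝ) (o ε p' η σ : ℕ → ℝ) (lv be b : ℕ → ℕ → ℝ) (κ : ℝ) (z : ℕ → ℕ → ℕ)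
    (B : F.Ω → Prop) (gc gT g₀ : ℕ → ℕ → ℕ)
    (G : ℕ → Pool.GEN.PtT F → ℕ → MvPolynomial (Option (Fin m)) ℝ)
    (H : ℕ → Pool.GEN.LnT F → ℕ → MvPolynomial (Option (Fin m)) ℝ)
    (T : ℕ → Pool.GEN.PtT F → ℕ → MvPolynomial (Option (Fin m)) ℝ)
    (TH : ℕ → Pool.GEN.LnT F → ℕ → MvPolynomial (Option (Fin m)) ℝ)
    (Gt : ℕ → Pool.GEN.PtT F → MvPolynomial (Option (Fin m)) ℝ)
    (Ht : ℕ → Pool.GEN.LnT F → MvPolynomial (Option (Fin m)) ℝ) : Prop where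
  C1 : 1 ≤ C₀
  Eb0 : 0 ≤ Eb
  hη : ∀ k ≤ N, 0 ≤ η k ∧ η k ≤ ηm
  hσ : ∀ k ≤ N, 0 ≤ σ k ∧ σ k ≤ ηm
  hε : ∀ k ≤ N, 0 ≤ ε k
  ho : ∀ k ≤ N, 0 ≤ o k ∧ o k ≤ a
  hp' : ∀ k ≤ N, C₀ * η k ≤ p' k
  hgr : ∀ k ≤ N, C₀ * (η k * J) ≤ gc k r
  hb : ∀ k ≤ N, ∀ l ≤ r, lv k l - σ k < b k l ∧ b k l < lv k l
  sds : ∀ k ≤ N, Pool.ISO.Sds r J (⌊a * J⌋₊ - ⌊o k * J⌋₊) R (lv k) (be k) (σ k) (ε k) (η k) (gc k) (gT k)
    (g₀ k)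
  evs : ∀ k ≤ N, Pool.W.ISO.EvS F c r D Dr ⌊o k * J⌋₊ (⌊a * J⌋₊ - ⌊o k * J⌋₊) M (z k)
    ⌊(Eb + σ k + η k) * J⌋₊ ⌊η k * J⌋₊ ⌊p' k * J⌋₊ R (fun l => ⌊b k l * J⌋₊) (gc k)
    (gT k) (g₀ k) κ B (G k) (H k) (T k) (TH k) (Gt k) (Ht k)
  row : ∀ i ≤ N, ∀ j ≤ N, o i ≤ o j → ∀ q : ℕ, (q : ℝ) + C₀ * (η j * J) ≤ p' i * J →
    (q : ℝ) + C₀ * (η j * J) ≤ gc j r →
    Pool.D2R.ROut1 F c r ⌊o i * J⌋₊ ⌊o j * J⌋₊ (⌊a * J⌋₊ - ⌊o j * J⌋₊) (g₀ j) (gT j) q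
      (2 ^ ⌊C₀ * (η j * J)⌋₊) B (G j) (H j) (T j) (TH j) (Ht i)
  bal : Pool.D2R.BalE F c r N M ⌊a * J⌋₊ (fun k => ⌊o k * J⌋₊) z (fun k l => ⌊b k l * J⌋₊) gc gT g₀
    (2 ^ ⌊C₀ * (ηm * J)⌋₊) B G T


section

variable {F : Pool.KA.Fam m J} {c : ℕ → Fin m} {r D Dr N M : ℕ} {R : ℕ → Prop}
    {C₀ a Eb ηm : ℝ} {o ε p' η σ : ℕ → ℝ} {lv be b : ℕ → ℕ → ℝ} {κ : ℝ} {z : ℕ → ℕ → ℕ}
    {B : F.Ω → Prop} {gc gT g₀ : ℕ → ℕ → ℕ}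
    {G : ℕ → Pool.GEN.PtT F → ℕ → MvPolynomial (Option (Fin m)) ℝ}
    {H : ℕ → Pool.GEN.LnT F → ℕ → MvPolynomial (Option (Fin m)) ℝ}
    {T : ℕ → Pool.GEN.PtT F → ℕ → MvPolynomial (Option (Fin m)) ℝ}
    {TH : ℕ → Pool.GEN.LnT F → ℕ → MvPolynomial (Option (Fin m)) ℝ}
    {Gt : ℕ → Pool.GEN.PtT F → MvPolynomial (Option (Fin m)) ℝ}
    {Ht : ℕ → Pool.GEN.LnT F → MvPolynomial (Option (Fin m)) ℝ}

/-- The sides of the balls. -/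
theorem Wins.g_num (W : Pool.W.D2R.Wins F c r D Dr N M R C₀ a Eb ηm o ε p' η σ lv be b κ z B gc gT g₀ G H T
    TH Gt Ht) {k l : ℕ} (hk : k ≤ N) (hl : l ≤ r) :
    (lv k l * J - ηm * J - 1 ≤ (⌊b k l * J⌋₊ : ℝ)) ∧ ((⌊b k l * J⌋₊ : ℝ) ≤ lv k l * J) ∧
    (lv k l * J - ηm * J ≤ (g₀ k l : ℝ)) ∧ ((g₀ k l : ℝ) ≤ lv k l * J) ∧
    (lv k l * J - ηm * J + (⌊a * J⌋₊ - ⌊o k * J⌋₊) ≤ (gc k l : ℝ)) ∧
    ((gc k l : ℝ) ≤ lv k l * J + (⌊a * J⌋₊ - ⌊o k * J⌋₊)) := by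
  have hJ : (0 : ℝ) ≤ J := Nat.cast_nonneg J
  obtain ⟨h1, h2⟩ := W.hb k hk l hl
  obtain ⟨h3, h4⟩ := W.hη k hk
  obtain ⟨h5, h6⟩ := W.hσ k hk
  have hs := W.sds k hk
  have s1 := hs.b1 l hl
  have s2 := hs.b2 l hl
  have s3 := hs.c1 l hl
  have s4 := hs.c2 l hl
  have hv : ⌊o k * J⌋₊ ≤ ⌊a * J⌋₊ := Nat.floor_le_floor (mul_le_mul_of_nonneg_right
    (W.ho k hk).2 hJ)
  rw [Nat.cast_sub hv] at s3 s4
  have e1 : (lv k l - ηm) * (J : ℝ) ≤ (lv k l - σ k) * J :=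
    mul_le_mul_of_nonneg_right (by linarith) hJ
  have e2 : (lv k l - σ k) * (J : ℝ) ≤ b k l * J := mul_le_mul_of_nonneg_right h1.le hJ
  have e3 : b k l * (J : ℝ) ≤ lv k l * J := mul_le_mul_of_nonneg_right h2.le hJ
  have e4 := (Nat.lt_floor_add_one (b k l * (J : ℝ))).le
  have e5 : (lv k l - ηm) * (J : ℝ) ≤ (lv k l - η k) * J :=
    mul_le_mul_of_nonneg_right (by linarith) hJ
  have e6 : (lv k l - ε k) * (J : ℝ) ≤ lv k l * J :=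
    mul_le_mul_of_nonneg_right (by linarith [W.hε k hk]) hJ
  have e7 : (⌊b k l * J⌋₊ : ℝ) ≤ lv k l * J := by
    rcases le_or_gt 0 (b k l * (J : ℝ)) with h | h
    · exact (Nat.floor_le h).trans e3
    · rw [Nat.floor_of_nonpos h.le, Nat.cast_zero]
      exact (Nat.cast_nonneg _).trans s2
  refine ⟨by linarith, e7, by linarith, s2, by linarith, by linarith⟩

/-- The sides of the thin charts. -/
theorem Wins.t_num (W : Pool.W.D2R.Wins F c r D Dr N M R C₀ a Eb ηm o ε p' η σ lv be b κ z B gc gT g₀ G H T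
    TH Gt Ht) {k l : ℕ} (hk : k ≤ N) (hl : l < r) :
    (R l → lv k l * J - ηm * J + (⌊a * J⌋₊ - ⌊o k * J⌋₊) ≤ (gT k l : ℝ) ∧
      (gT k l : ℝ) ≤ lv k l * J + (⌊a * J⌋₊ - ⌊o k * J⌋₊)) ∧
    (¬ R l → be k l * J - ηm * J ≤ (gT k l : ℝ) ∧ (gT k l : ℝ) ≤ be k l * J) := by
  have hJ : (0 : ℝ) ≤ J := Nat.cast_nonneg J
  obtain ⟨-, -, -, -, h1, h2⟩ := W.g_num hk hl.le
  refine ⟨fun h => ?_, fun h => ?_⟩
  · rw [((W.evs k hk).rgh l hl h).1]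
    exact ⟨h1, h2⟩
  · have s1 := (W.sds k hk).t1 l hl h
    have s2 := (W.sds k hk).t2 l hl h
    have e5 : (be k l - ηm) * (J : ℝ) ≤ (be k l - η k) * J :=
      mul_le_mul_of_nonneg_right (by linarith [(W.hη k hk).2]) hJ
    have e6 : (be k l - ε k) * (J : ℝ) ≤ be k l * J :=
      mul_le_mul_of_nonneg_right (by linarith [W.hε k hk]) hJ
    exact ⟨by linarith, by linarith⟩


end


end Pool.W.D2R
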