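import Pool.Agent.H23.D2.Wno
import Pool.Agent.H31.W.H2.GEN.IsoN
import Pool.Agent.H31.W.H23.D2.Bcl
import Pool.Agent.H31.W.H23.D2.Num
import Pool.Agent.H3.W.Bas
import Pool.Agent.H3.W.Nlp
import Pool.Agent.H31.W1.H2.GEN.ChT
import Pool.Agent.H31.W1.H2.GEN.EvS
import Pool.Agent.H31.W1.H80.GEN.Chn

/-!
# The closed gradient on the event of finitely many windows

`win_con`: the event `Wins` exists in a class. `win_lin`: `LinD` at a window of `Wins`, from a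
visible polynomial `Gp` with natural velocities and a closed gradient. `win_no`: such an event is
small.
-/

set_option autoImplicit false

namespace Pool.W.D2R

open Pool.D2R

open Finset Real MvPolynomial
open Pool.Agent.H49.Ent Pool.Agent.H32.Dense Pool.STK Pool.KA Pool.KSAT Pool.K2S Pool.PB Pool.S6C
open Pool.GEN Pool.CHT Pool.CHX Pool.ISO
open Pool.LBT (ThrOf)
open Pool.LEV (Law)
open Pool.FLF (Fam.sub)

variable {m J : ℕ}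

/-- **`Wins` in a class.** -/
theorem win_con (m r S₀ : ℕ) (hr : 1 ≤ r) (hS₀ : 1 ≤ S₀) : ∃ D : ℕ, 1 ≤ D ∧ ∀ Dr : ℕ, D ≤ Dr →
    ∃ C : ℝ, 1 ≤ C ∧ ∀ {S : Pool.PB.PCl m} {P : List (Fin m) × Fin m → ℝ → ℝ → ℝ} {θ : ℝ}
    {c : ℕ → Fin m} {Pt : ℝ → ℝ → ℝ} {R : ℕ → Prop} {a Eb ηm : ℝ} {o ε p' η σ r₀ : ℕ → ℝ}
    (N M : ℕ), Pool.LBT.ThrOf (Pool.W.CHT.chsys m θ) S P → 0 < θ → Pool.CHT.TmH S → Set.InjOn c (Set.Iio (r + 1)) → Pool.LEV.Law Pt →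
    0 ≤ Eb → (∀ k ≤ N, Pool.W.ISO.WinD S P θ c r Pt a (o k) S₀ Eb (ε k) R) →
    (∀ k ≤ N, C * ε k < o k ∧ C * ε k < η k ∧ 2 * (C * η k) ≤ o k) →
    (∀ k ≤ N, C * η k ≤ p' k ∧ p' k + C * ε k < Pt a (o k)) →
    (∀ k ≤ N, 0 < σ k ∧ σ k ≤ ηm ∧ 0 < r₀ k ∧ η k < a ∧ η k ≤ ηm) →
    (∀ k ≤ N, ∀ l ≤ r, Pool.ISO.lvN P c r Pt l (o k) (o k) + (a - o k) + (Eb + σ k + η k) < 1) →
    (∀ k ≤ N, ∀ l < r, Pool.CHT.bet P c l a (o k) + (Eb + σ k + η k) < 1) →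
    ∃ (K₁ : ℝ) (μ : ℕ → ℝ) (b : ℕ → ℕ → ℝ), 0 < K₁ ∧ (∀ k ≤ N, 0 < μ k ∧ ∀ l ≤ r,
        Pool.ISO.lvN P c r Pt l (o k) (o k) - σ k < b k l ∧
        b k l < Pool.ISO.lvN P c r Pt l (o k) (o k) - μ k) ∧
      ∀ κ : ℝ, 0 < κ → Pool.S6C.Bas S (fun J F A => ∀ z : ℕ → ℕ → ℕ,
        (∀ k ≤ N, ∀ i ≤ M, r₀ k * J ≤ z k i ∧ z k i ≤ ⌊a * J⌋₊ - ⌊o k * J⌋₊) →
        ∃ (B : F.Ω → Prop) (gc gT g₀ : ℕ → ℕ → ℕ)
          (G : ℕ → Pool.GEN.PtT F → ℕ → MvPolynomial (Option (Fin m)) ℝ)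
          (H : ℕ → Pool.GEN.LnT F → ℕ → MvPolynomial (Option (Fin m)) ℝ)
          (T : ℕ → Pool.GEN.PtT F → ℕ → MvPolynomial (Option (Fin m)) ℝ)
          (TH : ℕ → Pool.GEN.LnT F → ℕ → MvPolynomial (Option (Fin m)) ℝ)
          (Gt : ℕ → Pool.GEN.PtT F → MvPolynomial (Option (Fin m)) ℝ)
          (Ht : ℕ → Pool.GEN.LnT F → MvPolynomial (Option (Fin m)) ℝ), Pool.K2S.Sub B A ∧
          Pool.K2S.Pe F.p A ≤ K₁ * Pool.K2S.Pe F.p B ∧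
          Pool.W.D2R.Wins F c r D Dr N M R C a Eb ηm o ε p' η σ
            (fun k l => Pool.ISO.lvN P c r Pt l (o k) (o k)) (fun k l => Pool.CHT.bet P c l a (o k)) b κ z B gc gT
            g₀ G H T TH Gt Ht) := by
  obtain ⟨D, hD, hbal⟩ := Pool.W.D2R.bal_con m r S₀ hr hS₀
  refine ⟨D, hD, fun Dr hDr => ?_⟩
  obtain ⟨C, hC, hbal⟩ := hbal Dr hDr
  refine ⟨C, hC, ?_⟩
  intro S P θ c Pt R a Eb ηm o ε p' η σ r₀ N M hP hθ hS hinj hPt hEb hW hε hp' hσ htop hbet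
  have hε0 : ∀ k ≤ N, 0 ≤ C * ε k := fun k hk => mul_nonneg (by linarith) (hW k hk).ε0
  have hη0 : ∀ k ≤ N, 0 < η k := fun k hk => by
    have := hε0 k hk
    have := (hε k hk).2.1
    linarith
  obtain ⟨K₁, μ, b, h1, h2, h3⟩ := hbal N M hP hθ hS hinj hPt hW
    (fun k hk => ⟨(hε k hk).1, (hε k hk).2.1⟩)
    (fun k hk => ⟨le_trans (mul_nonneg (by linarith) (hη0 k hk).le) (hp' k hk).1,
      (hp' k hk).2⟩) (fun k hk => ⟨(hσ k hk).1, (hσ k hk).2.2.1, (hσ k hk).2.2.2.1⟩)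
    (fun k hk => (hσ k hk).2.2.2.2) htop hbet
  refine ⟨K₁, μ, b, h1, h2, fun κ hκ => (h3 κ hκ).mono 0 ?_⟩
  rintro J - F A hA z hz
  obtain ⟨B, gc, gT, g₀, G, H, T, TH, Gt, Ht, k1, k2, k3, k4, k5⟩ := hA z hz
  have hJ : (0 : ℝ) ≤ J := Nat.cast_nonneg J
  have ho : ∀ k ≤ N, 0 < o k ∧ o k < a := fun k hk => by
    obtain ⟨ρ, vs, e, e₀, E, sg, Q, d1, -⟩ := (hW k hk).dw
    exact ⟨d1.w0, (hW k hk).lt⟩
  refine ⟨B, gc, gT, g₀, G, H, T, TH, Gt, Ht, k1, k2, hC, hEb, fun k hk => ⟨(hη0 k hk).le,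
    (hσ k hk).2.2.2.2⟩, fun k hk => ⟨(hσ k hk).1.le, (hσ k hk).2.1⟩, fun k hk => (hW k hk).ε0,
    fun k hk => ⟨(ho k hk).1.le, (ho k hk).2.le⟩, fun k hk => (hp' k hk).1, fun k hk => ?_,
    fun k hk l hl => ⟨((h2 k hk).2 l hl).1, by
      have := (h2 k hk).1
      have := ((h2 k hk).2 l hl).2
      linarith⟩, fun k hk => (k3 k hk).1, fun k hk => (k3 k hk).2, k4, k5⟩
  -- the side of the target
  have hs := (k3 k hk).1.c1 r le_rfl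
  have hlow : o k ≤ Pool.ISO.lvN P c r Pt r (o k) (o k) := by
    unfold Pool.ISO.lvN
    rw [if_neg (lt_irrefl r)]
    obtain ⟨ρ, vs, e, e₀, E, sg, Q, d1, -⟩ := (hW k hk).dw
    exact d1.lw
  have h4 : (0 : ℝ) ≤ ((⌊a * J⌋₊ - ⌊o k * J⌋₊ : ℕ) : ℝ) := Nat.cast_nonneg _
  have h5 := (hε k hk).2.2
  have h6 : C * η k ≤ Pool.ISO.lvN P c r Pt r (o k) (o k) - η k := by
    have : η k ≤ C * η k := le_mul_of_one_le_left (hη0 k hk).le hC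
    linarith
  have h7 := mul_le_mul_of_nonneg_right h6 hJ
  linarith


end Pool.W.D2R
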